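import Pool.Agent.Lib.MP_12eaff_co.Frz.F.Defs

set_option autoImplicit false
set_option linter.unusedSectionVars false

namespace Pool.Agent.Lib.MP_12eaff_co.Frz.Acc2

open Finset
open scoped Classical

namespace Fr

variable {V : Type} [Fintype V] {X : Fr V} {D : ℕ} {f : V → ℕ}

theorem l4_two (ok : X.OK) {w z z' u : V} (hw : w ∈ X.F) (hz : z ∈ X.sl w) (hz' : z' ∈ X.sl w)
    (n : z ≠ z') (hu : u ∈ X.sl w) : u = z ∨ u = z' := by
  by_contra h
  push Not at h
  have h3 : ({u, z, z'} : Finset V) ⊆ X.sl w := by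
    intro x hx
    simp only [mem_insert, mem_singleton] at hx
    rcases hx with rfl | rfl | rfl <;> assumption
  have h4 := card_le_card h3
  rw [card_eq_three.2 ⟨u, z, z', h.1, h.2, n, rfl⟩] at h4
  have := ok.two w hw
  omega

theorem l4_mono (ok : X.OK) {w : V} {a y : ℕ} (hw : w ∈ X.F) (m : X.Mono f w a) (n : y ≠ a) :
    ¬ X.See f w y := by
  obtain ⟨z, hz, z', hz', nz, e, e'⟩ := m
  rintro ⟨u, hu, rfl⟩
  rcases l4_two ok hw hz hz' nz hu with rfl | rfl
  · exact n e
  · exact n e'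

theorem l4_both (ok : X.OK) {w : V} {a b y : ℕ} (hw : w ∈ X.F) (nab : a ≠ b) (sa : X.See f w a)
    (sb : X.See f w b) (na : y ≠ a) (nb : y ≠ b) : ¬ X.See f w y := by
  obtain ⟨z, hz, e⟩ := sa
  obtain ⟨z', hz', e'⟩ := sb
  rintro ⟨u, hu, rfl⟩
  rcases l4_two ok hw hz hz' (fun h => nab (by rw [← e, ← e', h])) hu with rfl | rfl
  · exact na e
  · exact nb e'

theorem l4_see {w : V} {a : ℕ} (m : X.Mono f w a) : X.See f w a := by
  obtain ⟨z, hz, -, -, -, e, -⟩ := m
  exact ⟨z, hz, e⟩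

/-- pins on chosen sets of slots -/
noncomputable def l4pin (D : ℕ) (S : V → Finset V) (c : V → ℕ) (z w : V) : ℕ :=
  if z ∈ S w then c w else D + 1

theorem l4_pins (d : Dat V) (S : V → Finset V) (c : V → ℕ) (Rt : Finset V)
    (e : d.pin = l4pin D S c) (h : ∀ w, w ∉ Rt → S w = ∅) :
    (pins D d).card ≤ ∑ w ∈ Rt, (S w).card := by
  have : pins D d ⊆ Rt.biUnion fun w => (S w).image fun z => (z, w) := by
    rintro ⟨z, w⟩ hp
    simp only [pins, mem_filter, mem_univ, true_and, e, l4pin] at hp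
    have hz : z ∈ S w := by
      by_contra n
      rw [if_neg n] at hp
      omega
    refine mem_biUnion.2 ⟨w, ?_, mem_image.2 ⟨z, hz, rfl⟩⟩
    by_contra n
    simp [h w n] at hz
  exact (card_le_card this).trans (card_biUnion_le.trans (sum_le_sum fun w _ => card_image_le))

theorem l4_hard (ok : X.OK) (h : X.Valid D f) {a : ℕ} (ha : a < D)
    (h6 : 6 ≤ (X.F.filter fun w => X.Mono f w a).card) :
    ∃ d : Dat V, X.Inv D d f ∧ (pins D d).card ≤ 4 ∧ d.A.card ≤ 1 ∧
      ∀ y, y ∉ d.A → 5 ≤ (X.Ns d.Rt f y).card := by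
  obtain ⟨q, hq, nq⟩ := h.nA a ha
  have hc := card_filter_add_card_filter_not (s := X.F) fun w => X.Mono f w a
  have h10 := h.mo a ha
  have h13 := ok.card
  obtain ⟨Rt, r1, r2, r3⟩ := exists_subsuperset_card_eq
    (s := {q}) (t := X.F.filter fun w => ¬ X.Mono f w a) (n := 3)
    (singleton_subset_iff.2 (mem_filter.2 ⟨hq, fun m => nq (l4_see m)⟩)) (by simp) (by omega)
  have qR : q ∈ Rt := r1 (mem_singleton_self q)
  have RF : Rt ⊆ X.F := r2.trans (filter_subset _ _)
  have ex : ∀ w, ∃ T : Finset V, T ⊆ X.sl w ∧ T.card ≤ 1 ∧ (∀ z ∈ T, f z ≠ a) ∧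
      (w ∈ Rt → (X.sl w).card < 2 ∨ T.Nonempty) := by
    intro w
    by_cases e : ∃ z ∈ X.sl w, f z ≠ a
    · obtain ⟨z, hz, nz⟩ := e
      exact ⟨{z}, by simpa using hz, by simp, by simpa using nz, fun _ => .inr (by simp)⟩
    · refine ⟨∅, by simp, by simp, by simp, fun hw => .inl ?_⟩
      push Not at e
      by_contra n
      obtain ⟨z, hz, z', hz', nz⟩ := one_lt_card.1 (show 1 < (X.sl w).card by omega)
      exact (mem_filter.1 (r2 hw)).2 ⟨z, hz, z', hz', nz, e z hz, e z' hz'⟩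
  choose T t1 t2 t3 t4 using ex
  let S : V → Finset V := fun w => if w = q then X.sl q else if w ∈ Rt then T w else ∅
  have sub : (X.F.filter fun w => X.Mono f w a) ⊆ X.F \ Rt := fun w hw =>
    mem_sdiff.2 ⟨(mem_filter.1 hw).1, fun hr => (mem_filter.1 (r2 hr)).2 (mem_filter.1 hw).2⟩
  refine ⟨⟨{a}, a, Rt, fun _ => q, l4pin D S fun _ => a⟩, ⟨by simpa using ha, fun _ => rfl, RF,
    r3.le, fun z w => ?_, fun b hb => ⟨qR, fun z hz => ?_⟩, fun b hb c hc _ => ?_,
    fun _ => ⟨r3, fun w hw => ?_⟩, fun n => absurd ha (not_lt.2 n),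
    fun y _ ny => ?_, fun y _ z _ ny _ _ => ?_, fun y _ ny => ?_⟩, ?_, by simp, fun y ny => ?_⟩
  · by_cases hz : z ∈ S w
    · right
      simp only [l4pin, if_pos hz, mem_singleton, true_and]
      simp only [S] at hz
      split_ifs at hz with e1 e2
      · subst e1
        exact ⟨qR, hz, fun e => nq ⟨z, hz, e⟩⟩
      · exact ⟨e2, t1 w hz, t3 w z hz⟩
      · simp at hz
    · exact .inl (if_neg hz)
  · rw [mem_singleton.1 hb]
    exact if_pos (by simpa [S] using hz)
  · rw [mem_singleton.1 hb, mem_singleton.1 hc]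
  · by_cases e : w = q
    · subst e
      rcases (X.sl w).eq_empty_or_nonempty with e | ⟨z, hz⟩
      · exact .inl (by simp [e])
      · exact .inr ⟨z, hz, if_pos (by simpa [S] using hz)⟩
    · rcases t4 w hw with e' | ⟨z, hz⟩
      · exact .inl e'
      · exact .inr ⟨z, t1 w hz, if_pos (by simpa [S, e, hw] using hz)⟩
  · refine le_trans (by omega) (h6.trans (card_le_card fun w hw => ?_))
    exact mem_filter.2 ⟨sub hw,
      l4_mono ok (mem_filter.1 hw).1 (mem_filter.1 hw).2 (by simpa using ny)⟩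
  · refine h6.trans (card_le_card fun w hw => ?_)
    exact mem_filter.2 ⟨sub hw, fun s =>
      l4_mono ok (mem_filter.1 hw).1 (mem_filter.1 hw).2 (by simpa using ny) s.1⟩
  · have h1 : ((X.F \ Rt).filter fun w => X.Mono f w y) ⊆
        (X.F \ Rt) \ X.F.filter fun w => X.Mono f w a := fun w hw =>
      mem_sdiff.2 ⟨(mem_filter.1 hw).1, fun hm => l4_mono ok (mem_filter.1 hm).1
        (mem_filter.1 hm).2 ny (l4_see (mem_filter.1 hw).2)⟩
    have h2 := card_le_card h1
    rw [card_sdiff_of_subset sub, card_sdiff_of_subset RF] at h2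
    change ((X.F \ Rt).filter fun w => X.Mono f w y).card ≤ 5
    omega
  · refine (l4_pins _ S (fun _ => a) Rt rfl fun w hw => ?_).trans ?_
    · have : w ≠ q := fun e => hw (e ▸ qR)
      simp [S, this, hw]
    · rw [← add_sum_erase _ _ qR]
      have h1 : ∑ w ∈ Rt.erase q, (S w).card ≤ (Rt.erase q).card • 1 :=
        sum_le_card_nsmul _ _ _ fun w hw => by
          simpa [S, (mem_erase.1 hw).1, (mem_erase.1 hw).2] using t2 w
      rw [card_erase_of_mem qR, r3] at h1
      have h2 : (S q).card ≤ 2 := by simpa [S] using ok.two q hq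
      simp only [smul_eq_mul] at h1
      omega
  · refine le_trans (by omega) (h6.trans (card_le_card fun w hw => ?_))
    exact mem_filter.2 ⟨sub hw,
      l4_mono ok (mem_filter.1 hw).1 (mem_filter.1 hw).2 (by simpa using ny)⟩

/-- the soft cases: holders only -/
theorem l4_soft (ok : X.OK) (A : Finset ℕ) (hd : ℕ → V) (lt : ∀ a ∈ A, a < D) (c2 : A.card ≤ 2)
    (hF : ∀ a ∈ A, hd a ∈ X.F ∧ ¬ X.See f (hd a) a)
    (inj : ∀ a ∈ A, ∀ b ∈ A, hd a = hd b → a = b)
    (m5 : ∀ y < D, (X.F.filter fun w => X.Mono f w y).card ≤ 5)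
    (s1 : ∀ y < D, y ∉ A → 3 ≤ (X.Ns (A.image hd) f y).card)
    (s2 : ∀ y < D, ∀ z < D, y ∉ A → z ∉ A → y ≠ z →
      6 ≤ ((X.F \ A.image hd).filter fun w => ¬ (X.See f w y ∧ X.See f w z)).card) :
    ∃ d : Dat V, X.Inv D d f ∧ (pins D d).card ≤ 4 ∧ d.A = A ∧ d.Rt = A.image hd := by
  have ex : ∀ w, ∃ c : ℕ, ∀ a ∈ A, hd a = w → c = a := by
    intro w
    by_cases e : ∃ a ∈ A, hd a = w
    · obtain ⟨a, ha, e⟩ := e
      exact ⟨a, fun b hb e' => inj a ha b hb (e.trans e'.symm)⟩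
    · exact ⟨0, fun b hb e' => absurd ⟨b, hb, e'⟩ e⟩
  choose c hc using ex
  let S : V → Finset V := fun w => if w ∈ A.image hd then X.sl w else ∅
  have RF : A.image hd ⊆ X.F := fun w hw => by
    obtain ⟨a, ha, rfl⟩ := mem_image.1 hw
    exact (hF a ha).1
  have r2 : (A.image hd).card ≤ 2 := card_image_le.trans c2
  refine ⟨⟨A, D, A.image hd, hd, l4pin D S c⟩, ⟨lt, fun n => absurd n (lt_irrefl _), RF,
    r2.trans (by norm_num), fun z w => ?_, fun a ha => ⟨mem_image_of_mem _ ha, fun z hz => ?_⟩, inj,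
    fun n => absurd n (lt_irrefl _), fun _ w hw => mem_image.1 hw, s1, s2, fun y hy _ => ?_⟩,
    ?_, rfl, rfl⟩
  · by_cases hz : z ∈ S w
    · right
      simp only [l4pin, if_pos hz]
      simp only [S] at hz
      split_ifs at hz with e
      · obtain ⟨a, ha, rfl⟩ := mem_image.1 e
        rw [hc _ a ha rfl]
        exact ⟨e, hz, ha, fun e' => (hF a ha).2 ⟨z, hz, e'⟩⟩
      · simp at hz
    · exact .inl (if_neg hz)
  · have : z ∈ S (hd a) := by simpa only [S, if_pos (mem_image_of_mem hd ha)] using hz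
    simp only [l4pin, if_pos this]
    exact hc _ a ha rfl
  · exact (card_le_card (filter_subset_filter _ sdiff_subset)).trans (m5 y hy)
  · refine (l4_pins _ S c (A.image hd) rfl fun w hw => if_neg hw).trans ?_
    have h1 : ∑ w ∈ A.image hd, (S w).card ≤ (A.image hd).card • 2 :=
      sum_le_card_nsmul _ _ _ fun w hw => by
        simpa only [S, if_pos hw] using ok.two w (RF hw)
    simp only [smul_eq_mul] at h1
    omega

theorem l4_hold (h : X.Valid D f) {a b : ℕ} (ha : a < D) (hb : b < D) (n : a ≠ b) :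
    ∃ p ∈ X.F, ∃ q ∈ X.F, p ≠ q ∧ ¬ X.See f p a ∧ ¬ X.See f q b := by
  obtain ⟨p, hp, np⟩ := h.nA a ha
  obtain ⟨q, hq, nq⟩ := h.nA b hb
  by_cases e : p = q
  · subst e
    have hc := card_filter_add_card_filter_not (s := X.F) fun w => X.See f w a ∧ X.See f w b
    have h2 := h.nB a ha b hb n
    obtain ⟨r, hr, nr⟩ := exists_mem_ne
      (s := X.F.filter fun w => ¬ (X.See f w a ∧ X.See f w b)) (by omega) p
    obtain ⟨hr1, hr2⟩ := mem_filter.1 hr
    rcases not_and_or.1 hr2 with e | e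
    · exact ⟨r, hr1, p, hp, nr, e, nq⟩
    · exact ⟨p, hp, r, hr1, nr.symm, np, e⟩
  · exact ⟨p, hp, q, hq, e, np, nq⟩

theorem root2 (ok : X.OK) (h : X.Valid D f) : ∃ d : Dat V, X.Inv D d f ∧ (pins D d).card ≤ 4 ∧
    ((d.A.card ≤ 1 ∧ (d.A.Nonempty → ∀ y < D, y ∉ d.A → 5 ≤ (X.Ns d.Rt f y).card)) ∨
      ∃ a b, a ≠ b ∧ d.A = {a, b} ∧
      7 ≤ ((X.F \ d.Rt).filter fun w => X.See f w a ∧ X.See f w b).card) := by
  have h13 := ok.card
  by_cases c1 : ∃ a < D, 6 ≤ (X.F.filter fun w => X.Mono f w a).card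
  · obtain ⟨a, ha, h6⟩ := c1
    obtain ⟨d, d1, d2, d3, d4⟩ := l4_hard ok h ha h6
    exact ⟨d, d1, d2, .inl ⟨d3, fun _ y _ => d4 y⟩⟩
  have m5 : ∀ y < D, (X.F.filter fun w => X.Mono f w y).card ≤ 5 := fun y hy => by
    by_contra n
    exact c1 ⟨y, hy, by omega⟩
  by_cases c2 : ∃ a < D, ∃ b < D, a ≠ b ∧
      7 ≤ (X.F.filter fun w => X.See f w a ∧ X.See f w b).card
  · obtain ⟨a, ha, b, hb, n, h7⟩ := c2
    obtain ⟨p, hp, q, hq, npq, np, nq⟩ := l4_hold h ha hb n
    let hd : ℕ → V := fun y => if y = a then p else q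
    have e1 : hd a = p := if_pos rfl
    have e2 : hd b = q := if_neg n.symm
    have sub : (X.F.filter fun w => X.See f w a ∧ X.See f w b) ⊆ X.F \ image hd {a, b} := by
      intro w hw
      obtain ⟨w1, w2⟩ := mem_filter.1 hw
      refine mem_sdiff.2 ⟨w1, fun hr => ?_⟩
      simp only [image_insert, image_singleton, e1, e2, mem_insert, mem_singleton] at hr
      rcases hr with rfl | rfl
      · exact np w2.1
      · exact nq w2.2
    have key : ∀ y, y ∉ ({a, b} : Finset ℕ) → ∀ w ∈ X.F.filter fun w => X.See f w a ∧ X.See f w b,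
        ¬ X.See f w y := fun y ny w hw => by
      simp only [mem_insert, mem_singleton, not_or] at ny
      exact l4_both ok (mem_filter.1 hw).1 n (mem_filter.1 hw).2.1 (mem_filter.1 hw).2.2 ny.1 ny.2
    obtain ⟨d, d1, d2, d3, d4⟩ := l4_soft (f := f) ok {a, b} hd (by simp [ha, hb]) card_le_two
      (by simp [e1, e2, hp, hq, np, nq]) (by simp [e1, e2, npq, npq.symm]) m5
      (fun y _ ny => le_trans (by omega) (h7.trans (card_le_card fun w hw =>
        mem_filter.2 ⟨sub hw, key y ny w hw⟩)))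
      (fun y _ z _ ny _ _ => le_trans (by omega) (h7.trans (card_le_card fun w hw =>
        mem_filter.2 ⟨sub hw, fun s => key y ny w hw s.1⟩)))
    refine ⟨d, d1, d2, .inr ⟨a, b, n, d3, h7.trans (card_le_card fun w hw => ?_)⟩⟩
    exact mem_filter.2 ⟨d4 ▸ sub hw, (mem_filter.1 hw).2⟩
  have p6 : ∀ a < D, ∀ b < D, a ≠ b →
      (X.F.filter fun w => X.See f w a ∧ X.See f w b).card ≤ 6 := fun a ha b hb n => by
    by_contra n'
    exact c2 ⟨a, ha, b, hb, n, by omega⟩
  have p7 : ∀ a < D, ∀ b < D, a ≠ b →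
      7 ≤ (X.F.filter fun w => ¬ (X.See f w a ∧ X.See f w b)).card := fun a ha b hb n => by
    have hc := card_filter_add_card_filter_not (s := X.F) fun w => X.See f w a ∧ X.See f w b
    have := p6 a ha b hb n
    omega
  by_cases c3 : ∃ a < D, (X.F.filter fun w => ¬ X.See f w a).card ≤ 2
  · obtain ⟨a, ha, h2⟩ := c3
    obtain ⟨q, hq, nq⟩ := h.nA a ha
    have k5 : ∀ y < D, y ∉ ({a} : Finset ℕ) → 5 ≤ (X.Ns (image (fun _ => q) {a}) f y).card := by
      intro y hy ny
      have h7 := p7 y hy a ha (by simpa using ny)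
      have h1 : (X.F.filter fun w => ¬ (X.See f w y ∧ X.See f w a)) ⊆
          X.Ns (image (fun _ => q) {a}) f y ∪ X.F.filter fun w => ¬ X.See f w a := by
        intro w hw
        obtain ⟨w1, w2⟩ := mem_filter.1 hw
        by_cases s : X.See f w a
        · refine mem_union_left _ (mem_filter.2 ⟨mem_sdiff.2 ⟨w1, fun hr => ?_⟩,
            fun s' => w2 ⟨s', s⟩⟩)
          simp only [image_singleton, mem_singleton] at hr
          exact nq (hr ▸ s)
        · exact mem_union_right _ (mem_filter.2 ⟨w1, s⟩)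
      have := (card_le_card h1).trans (card_union_le _ _)
      omega
    obtain ⟨d, d1, d2, d3, d4⟩ := l4_soft (f := f) ok {a} (fun _ => q) (by simp [ha]) (by simp)
      (by simp [hq, nq]) (by simp) m5
      (fun y hy ny => le_trans (by norm_num) (k5 y hy ny))
      (fun y hy z hz _ _ n => by
        have h7 := p7 y hy z hz n
        have h1 : (X.F.filter fun w => ¬ (X.See f w y ∧ X.See f w z)) ⊆ insert q
            ((X.F \ image (fun _ => q) {a}).filter fun w => ¬ (X.See f w y ∧ X.See f w z)) := by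
          intro w hw
          obtain ⟨w1, w2⟩ := mem_filter.1 hw
          by_cases e : w = q
          · exact mem_insert.2 (.inl e)
          · exact mem_insert_of_mem (mem_filter.2 ⟨mem_sdiff.2 ⟨w1, by simpa using e⟩, w2⟩)
        have := (card_le_card h1).trans (card_insert_le _ _)
        omega)
    exact ⟨d, d1, d2, .inl ⟨by simp [d3], fun _ y hy ny => d4 ▸ k5 y hy (d3 ▸ ny)⟩⟩
  · obtain ⟨q, -⟩ := card_pos.1 (show 0 < X.F.card by omega)
    obtain ⟨d, d1, d2, d3, -⟩ := l4_soft (f := f) ok ∅ (fun _ => q) (by simp) (by simp)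
      (by simp) (by simp) m5
      (fun y hy _ => by
        rw [Ns, image_empty, sdiff_empty]
        by_contra n
        exact c3 ⟨y, hy, by omega⟩)
      (fun y hy z hz _ _ n => by
        rw [image_empty, sdiff_empty]
        exact le_trans (by norm_num) (p7 y hy z hz n))
    exact ⟨d, d1, d2, .inl (by simp [d3])⟩

theorem root (ok : X.OK) (h : X.Valid D f) : ∃ d : Dat V, X.Inv D d f ∧ (pins D d).card ≤ 4 ∧
    (d.A.card ≤ 1 ∨ ∃ a b, a ≠ b ∧ d.A = {a, b} ∧
      7 ≤ ((X.F \ d.Rt).filter fun w => X.See f w a ∧ X.See f w b).card) :=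
  (root2 ok h).imp fun _ hd => ⟨hd.1, hd.2.1, hd.2.2.imp_left And.left⟩

end Fr

end Pool.Agent.Lib.MP_12eaff_co.Frz.Acc2
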