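import Pool.Agent.Lib.MP_12eaff_co.Frz.F.Tw

set_option autoImplicit false
set_option linter.unusedSectionVars false

namespace Pool.Agent.Lib.MP_12eaff_co.Frz.Acc2

open Finset Pool.Agent.Lib.MP_12eaff_co.Frz.BK PV Tr
open scoped Classical

variable {V : Type} [Fintype V] {G : SimpleGraph V} {D : ℕ}

namespace Cx

variable {C : Cx G D} (T : Tr (PG G C.U C.P) D) (st : PV V → C.St) (L : Finset (PV V))

/-- Clique and member of a passage. -/
noncomputable def kx (x : PV V) : Finset V × V :=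
  if k : ∃ K w, (st (T.p x)).Pass x.fst (st x) K w then (k.choose, k.choose_spec.choose)
  else (∅, x.fst)

/-- Passage children. -/
noncomputable def PC : Finset (PV V) := T.R.filter fun x => x ≠ T.r ∧ x ∉ T.O (T.p x)

noncomputable def PX (K : Finset V) : Finset (PV V) := (PC T).filter fun x => (kx T st x).1 = K

/-- Unique ports. -/
noncomputable def DD : Finset ((V × V) × ℕ) := (univ ×ˢ range D).filter fun t =>
  t.1.2 ∈ C.U ∧ inl t.1.1 ∈ T.R ∧ inr t.1 ∈ T.Dr (inl t.1.1) ∧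
    (st (inl t.1.1)).pin t.1.1 t.1.2 = t.2

/-- Tickets. -/
noncomputable def TT : Finset ((V × V) × ℕ) := (univ ×ˢ range D).filter fun t =>
  t.1.2 ∈ C.U ∧ inl t.1.1 ∈ T.R ∧ (st (inl t.1.1)).port t.1.1 t.1.2 ≠ t.2 ∧
    ∃ y ∈ T.R, (st y).pin t.1.1 t.1.2 = t.2

/-- Claims. -/
noncomputable def CL : Finset (V × V) := univ.filter fun p =>
  p.2 ∈ C.U ∧ G.Adj p.1 p.2 ∧ p.1 ∉ C.U ∪ C.P ∧ (inl p.1 ∈ L ∨ inl p.1 ∈ T.R ∧
    inr p ∉ T.Dr (inl p.1) ∧ (T.Clm (inl p.1) ∨ D < T.col (inl p.1) (inr p)))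

namespace Tw

variable {T st L} {s0 : C.St} (h : Tw C s0 T st L) {v x y : PV V} {a e w m u q : V}
  {K : Finset V} {κ : ℕ}
include h

theorem px_spec (hx : x ∈ PC T) :
    (st (T.p x)).Pass x.fst (st x) (kx T st x).1 (kx T st x).2 := by
  obtain ⟨a, b, c⟩ := mem_filter.1 hx
  have k := h.px x a b c
  rw [kx, dif_pos k]
  exact k.choose_spec.choose_spec

theorem step_dat (hv : v ∈ T.R) (hr : v ≠ T.r) (K : Finset V) :
    (st v).dat K = (st (T.p v)).dat K ∨ v ∈ PX T st K := by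
  rcases h.nx v hv hr with k | k
  · exact .inl (congrFun k K)
  · have p : v ∈ PC T := mem_filter.2 ⟨hv, hr, k.1⟩
    by_cases e : (kx T st v).1 = K
    exacts [.inr (mem_filter.2 ⟨p, e⟩), .inl ((h.px_spec p).off K (Ne.symm e))]

theorem pins_sub (hy : y ∈ T.R) (l : κ < D) : ((st y).dat K).pin a w = κ →
    (s0.dat K).pin a w = κ ∨ ∃ x ∈ PX T st K, w = (kx T st x).2 ∧ κ = (st (T.p x)).f x.fst := by
  refine T.ind (P := fun y => ((st y).dat K).pin a w = κ → _) (fun k => .inl (h.r ▸ k))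
    (fun y hy hr ih k => ?_) y hy
  rcases h.step_dat hy hr K with e | e
  · exact ih (e ▸ k)
  · obtain ⟨e1, rfl⟩ := mem_filter.1 e
    rcases (h.px_spec e1).step.new a w with i | i | i
    exacts [by omega, ih (i ▸ k), .inr ⟨y, e, i.1, k ▸ i.2⟩]

theorem dd_le : ∑ v ∈ T.R, (T.Dr v ∩ T.Dm).card ≤ (DD T st).card := by
  rw [← card_sigma]
  refine card_le_card_of_injOn (fun p => ((p.2.fst, p.2.snd), (st p.1).pin p.2.fst p.2.snd))
    (fun ⟨v, x⟩ k => ?_) fun ⟨v, x⟩ k ⟨v', x'⟩ k' e => ?_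
  · obtain ⟨hv, k⟩ := mem_sigma.1 (mem_coe.1 k)
    dsimp only at hv k
    obtain ⟨k1, k2⟩ := mem_inter.1 k
    obtain ⟨w, w1, rfl, w3, _⟩ := h.dr_pin hv k1 k2
    have e := (h.z v hv).1
    exact mem_coe.2 (mem_filter.2 ⟨mem_product.2 ⟨mem_univ _, mem_range.2 w3⟩, w1, e ▸ hv,
      e ▸ k1, by dsimp only [PV.fst, PV.snd]; rw [← e]⟩)
  · obtain ⟨hv, k⟩ := mem_sigma.1 (mem_coe.1 k)
    obtain ⟨hv', k'⟩ := mem_sigma.1 (mem_coe.1 k')
    dsimp only at hv k hv' k' e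
    obtain ⟨w, _, rfl, _⟩ := h.dr_pin hv (mem_inter.1 k).1 (mem_inter.1 k).2
    obtain ⟨w', _, rfl, _⟩ := h.dr_pin hv' (mem_inter.1 k').1 (mem_inter.1 k').2
    obtain ⟨e1, e2⟩ : (st v).z = (st v').z ∧ w = w' := Prod.mk.inj (congrArg Prod.fst e)
    obtain rfl : v = v' := by rw [(h.z v hv).1, e1, ← (h.z v' hv').1]
    rw [e2]

theorem tt_le : T.Tix.card ≤ (TT T st).card := by
  refine le_trans (card_le_card fun ⟨v, κ⟩ k => ?_)
    (card_image_le (f := fun t => (inl t.1.1, t.2)))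
  obtain ⟨k1, y, hy, x, x1, x2, x3, x4⟩ := mem_filter.1 k
  obtain ⟨hv, l⟩ := mem_product.1 k1
  have l' := mem_range.1 l
  dsimp only at *
  rcases x with b | ⟨b, w⟩
  · have := C.rules.col_big (st y) (PD_l.1 (h.dm ▸ x1))
    rw [(h.z y hy).2.2] at x3; omega
  have e := (h.z v hv).1
  rw [e] at x2
  obtain ⟨rfl, _, hw, _⟩ : (st v).z = b ∧ _ := x2
  have n : (st v).z ≠ (st y).z := fun j => x4 (by rwa [e, j, ← (h.z y hy).1, ← j])
  rw [h.col_r hy, St.port_test n] at x3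
  rw [h.col_r hv] at x4
  exact mem_image.2 ⟨(((st v).z, w), κ), mem_filter.2 ⟨mem_product.2 ⟨mem_univ _, l⟩, hw, e ▸ hv,
    by rwa [← e], y, hy, x3⟩, by rw [← e]⟩

theorem cl_le :
    (CL T L).card ≤ ∑ e ∈ T.R, T.gain e + ∑ e ∈ L, (nb (PG G C.U C.P) e ∩ T.Dm).card := by
  let Q := fun e => (nb (PG G C.U C.P) e).filter fun x =>
    x ∈ T.Dm ∧ x ∉ T.Dr e ∧ (T.Clm e ∨ D < T.col e x)
  refine (card_le_card_of_injOn (t := T.R.biUnion Q ∪ L.biUnion fun e => nb _ e ∩ T.Dm) inr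
    (fun p k => ?_) fun _ _ _ _ e => PV.inr.inj e).trans ((card_union_le _ _).trans
      (add_le_add (card_biUnion_le.trans (sum_le_sum fun e he => ?_)) card_biUnion_le))
  · obtain ⟨_, k1, k2, k3, k4⟩ := mem_filter.1 (mem_coe.1 k)
    have a : inr p ∈ nb (PG G C.U C.P) (inl p.1) := mem_nb.2 ⟨rfl, k3, k1, k2⟩
    have b : inr p ∈ T.Dm := h.dm ▸ PD_r
    refine mem_coe.2 (mem_union.2 (k4.symm.imp (fun j => mem_biUnion.2 ⟨_, j.1, ?_⟩) fun j =>
      mem_biUnion.2 ⟨_, j, mem_inter.2 ⟨a, b⟩⟩))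
    exact mem_filter.2 ⟨a, b, j.2⟩
  · exact h.a.gain_ge h.s2 he (fun x k => ⟨mem_nb.1 (mem_filter.1 k).1, (mem_filter.1 k).2.1,
      (mem_filter.1 k).2.2.1⟩) fun x k => (mem_filter.1 k).2.2.2

theorem pc_le : (PC T).card ≤ ∑ e ∈ T.R, (T.CX e).card :=
  le_trans (card_le_card fun x k => by
    obtain ⟨a, b, c⟩ := mem_filter.1 k
    exact mem_biUnion.2 ⟨_, T.p_mem x a b, T.mem_CX.2 ⟨T.mem_ch.2 ⟨a, b, rfl⟩, c⟩⟩)
    card_biUnion_le

/-- With passage children. -/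
theorem caseP (hK : K ∈ C.𝒦) (r : (Fr.pins D (s0.dat K)).card ≤ 4) :
    ((TT T st).filter fun t => C.cq t.1.2 = K).card ≤ 4 + (PX T st K).card ∧
    ((TT T st).filter fun t => C.cq t.1.2 = K).card +
      ((DD T st).filter fun t => C.cq t.1.2 = K).card ≤ 4 + 2 * (PX T st K).card := by
  have gen : ∀ (S : Finset ((V × V) × ℕ)) (n : ℕ) (Z : PV V → Finset V),
      (∀ x ∈ PX T st K, (Z x).card ≤ n) → (∀ t ∈ S, t.2 < D ∧ ((s0.dat K).pin t.1.1 t.1.2 = t.2 ∨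
        ∃ x ∈ PX T st K, t.1.1 ∈ Z x ∧ t.1.2 = (kx T st x).2 ∧ t.2 = (st (T.p x)).f x.fst)) →
      S.card ≤ 4 + n * (PX T st K).card := fun S n Z a b => by
    refine (card_le_card (t := (Fr.pins D (s0.dat K)).image (fun p => (p, (s0.dat K).pin p.1 p.2)) ∪
      (PX T st K).biUnion fun x => (Z x).image fun z =>
        ((z, (kx T st x).2), (st (T.p x)).f x.fst)) fun t k => ?_).trans ((card_union_le _ _).trans
      (add_le_add (card_image_le.trans r) ((card_biUnion_le_card_mul _ _ n fun x k =>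
        card_image_le.trans (a x k)).trans (mul_comm _ _).le)))
    obtain ⟨l, j | ⟨x, x1, x2, x3, x4⟩⟩ := b t k
    · exact mem_union_left _ (mem_image.2 ⟨t.1, mem_filter.2 ⟨mem_univ _, j ▸ l⟩, Prod.ext rfl j⟩)
    · exact mem_union_right _ (mem_biUnion.2 ⟨x, x1, mem_image.2 ⟨_, x2,
        Prod.ext (Prod.ext rfl x3.symm) x4.symm⟩⟩)
  have sp : ∀ x ∈ PX T st K, (st (T.p x)).Pass x.fst (st x) K (kx T st x).2 := fun x k =>
    (mem_filter.1 k).2 ▸ h.px_spec (mem_filter.1 k).1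
  have two : ∀ x ∈ PX T st K, ((C.fr K).sl (kx T st x).2).card ≤ 2 := fun x k =>
    (C.ok K hK).two _ (sp x k).hw
  have key : ∀ (t : (V × V) × ℕ), t.2 < D → t.1.2 ∈ C.U → C.cq t.1.2 = K → ∀ y ∈ T.R,
      (st y).pin t.1.1 t.1.2 = t.2 → (s0.dat K).pin t.1.1 t.1.2 = t.2 ∨ ∃ x ∈ PX T st K,
        t.1.1 ∈ (C.fr K).sl (kx T st x).2 ∧ t.1.2 = (kx T st x).2 ∧
          t.2 = (st (T.p x)).f x.fst := fun t l u c y hy k => by
    rw [St.pin_K hK (c ▸ (C.hU _ u).2)] at k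
    refine (h.pins_sub hy l k).imp_right fun ⟨x, x1, x2, x3⟩ => ⟨x, x1, ?_, x2, x3⟩
    obtain ⟨_, _, j1, j2⟩ := St.dat_lt hK (k ▸ l)
    exact C.mem_sl.2 ⟨x2 ▸ j1, j2⟩
  constructor
  · have := gen ((TT T st).filter fun t => C.cq t.1.2 = K) 1
      (fun x => ((C.fr K).sl (kx T st x).2).erase x.fst) (fun x k => by
        have := two x k
        rw [card_erase_of_mem (sp x k).he]; omega) fun t k => ?_
    · omega
    obtain ⟨k1, c⟩ := mem_filter.1 k
    obtain ⟨k2, u, k3, k4, y, hy, k5⟩ := mem_filter.1 k1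
    have l := mem_range.1 (mem_product.1 k2).2
    refine ⟨l, (key t l u c y hy k5).imp_right fun ⟨x, x1, x2, x3, x4⟩ =>
      ⟨x, x1, mem_erase.2 ⟨fun j => k4 ?_, x2⟩, x3, x4⟩⟩
    have xR : x ∈ T.R := (mem_filter.1 (mem_filter.1 x1).1).1
    have e : inl t.1.1 = x := by rw [j, ← (sp x x1).z, ← (h.z x xR).1]
    have o : (st x).pin t.1.1 t.1.2 = t.2 := by
      rw [St.pin_K hK (c ▸ (C.hU _ u).2), j, x3, x4, (sp x x1).step.own]
    rw [e, St.port_pin (o ▸ l), o]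
  · rw [← card_union_of_disjoint (disjoint_left.2 fun t a b => ?_)]
    · refine gen _ 2 _ two fun t k => ?_
      rcases mem_union.1 k with k | k <;> obtain ⟨k1, c⟩ := mem_filter.1 k
      · obtain ⟨k2, u, _, _, y, hy, k5⟩ := mem_filter.1 k1
        have l := mem_range.1 (mem_product.1 k2).2
        exact ⟨l, key t l u c y hy k5⟩
      · obtain ⟨k2, u, k3, _, k5⟩ := mem_filter.1 k1
        have l := mem_range.1 (mem_product.1 k2).2
        exact ⟨l, key t l u c _ k3 k5⟩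
    · obtain ⟨k2, _, _, _, k5⟩ := mem_filter.1 (mem_filter.1 b).1
      have l := mem_range.1 (mem_product.1 k2).2
      exact (mem_filter.1 (mem_filter.1 a).1).2.2.2.1 ((St.port_pin (k5 ▸ l)).trans k5)

theorem const (np : PX T st K = ∅) (hy : y ∈ T.R) : (st y).dat K = s0.dat K :=
  T.ind (P := fun y => (st y).dat K = s0.dat K) (by rw [h.r]) (fun y hy hr ih =>
    ((h.step_dat hy hr K).resolve_right (np ▸ notMem_empty y)).trans ih) y hy

theorem c_eq (k : a ∉ C.U ∪ C.P) : T.c (inl a) = s0.f a := by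
  rw [← T.col_r, h.col_l T.r_mem k, h.r]

theorem f_par (hv : v ∈ T.R) (hr : v ≠ T.r) : (st v).f (st v).q = T.c v := by
  rw [← col_par hv hr, (h.z v hv).2.1, h.col_l hv (st v).rpar]

/-- A changed slot gives a claim. -/
theorem chg (hK : K ∈ C.𝒦) (np : PX T st K = ∅) (hy : y ∈ T.R) (hu : u ∈ (C.fr K).F)
    (ha : a ∈ (C.fr K).sl u) (fr : D ≤ (s0.dat K).pin a u) (l : (st y).f a < D)
    (n : (st y).f a ≠ s0.f a) (c : T.c y ≠ (st y).f a) :
    u ∈ ((CL T L).filter fun p => C.cq p.2 = K).image Prod.snd := by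
  obtain ⟨a1, a2⟩ := C.mem_sl.1 ha
  obtain ⟨u1, u2⟩ := C.sub K hK u (C.F_sub hu)
  have an : T.Anc (inl a) y := by_contra fun j => n (by
    rw [← h.col_l hy a2, col_base hy (fun i => a2 (PD_l.1 (h.dm ▸ i))) j, h.c_eq a2])
  have aR := an.mem.1
  refine mem_image.2 ⟨(a, u), mem_filter.2 ⟨mem_filter.2 ⟨mem_univ _, u1, a1.symm, a2,
    .inr ⟨aR, fun j => ?_, .inl (clm_of an (fun j => ?_) (by rwa [h.col_l hy a2]))⟩⟩, u2⟩, rfl⟩
  · obtain ⟨w, _, e, k, _⟩ := h.dr_pin aR j (h.dm ▸ PD_r)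
    rw [h.z_eq aR] at e k
    obtain rfl : u = w := congrArg PV.snd e
    rw [St.pin_K hK (C.F_sub hu), h.const np aR] at k
    omega
  · rw [← h.col_l hy a2, j, col_self hy] at l; omega

/-- Without passage children. -/
theorem caseN (hK : K ∈ C.𝒦) (r : C.Root s0) (np : PX T st K = ∅) :
    ((TT T st).filter fun t => C.cq t.1.2 = K) = ∅ ∧
    ((DD T st).filter fun t => C.cq t.1.2 = K).card ≤
      ((CL T L).filter fun p => C.cq p.2 = K).card := by
  have pk : ∀ y ∈ T.R, ∀ a, ∀ w ∈ K, (st y).pin a w = (s0.dat K).pin a w := fun y hy a w k => by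
    rw [St.pin_K hK k, h.const np hy]
  have iv : ∀ y ∈ T.R, (C.fr K).Inv D (s0.dat K) (st y).f := fun y hy =>
    h.const np hy ▸ (st y).inv K hK
  constructor
  · refine eq_empty_of_forall_notMem fun t k => ?_
    obtain ⟨k1, c⟩ := mem_filter.1 k
    obtain ⟨k2, u, k3, k4, y, hy, k5⟩ := mem_filter.1 k1
    have l := mem_range.1 (mem_product.1 k2).2
    have m : t.1.2 ∈ K := c ▸ (C.hU _ u).2
    have o : (st (inl t.1.1)).pin t.1.1 t.1.2 = t.2 := by rw [pk _ k3 _ _ m, ← pk _ hy _ _ m, k5]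
    exact k4 ((St.port_pin (o ▸ l)).trans o)
  refine le_trans ?_ ((Fr.np_main (C.ok K hK) (r.2 K hK) (En := ((DD T st).filter
    fun t => C.cq t.1.2 = K).image Prod.fst) fun p k => ?_).trans (card_image_le (f := Prod.snd)))
  · refine (card_image_of_injOn fun t a t' b e => Prod.ext e ?_).ge
    rw [← (mem_filter.1 (mem_filter.1 (mem_coe.1 a)).1).2.2.2.2,
      ← (mem_filter.1 (mem_filter.1 (mem_coe.1 b)).1).2.2.2.2, e]
  obtain ⟨⟨⟨v, q⟩, κ⟩, k', rfl⟩ := mem_image.1 k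
  obtain ⟨k1, c⟩ := mem_filter.1 k'
  obtain ⟨_, u, hv, k4, _⟩ := mem_filter.1 k1
  clear k k' k1
  dsimp only at c u hv k4 ⊢
  have qK : q ∈ K := c ▸ (C.hU _ u).2
  obtain ⟨w, _, e, l, ms, mp⟩ := h.dr_pin hv k4 (h.dm ▸ PD_r)
  obtain rfl : q = w := congrArg PV.snd e
  have z := h.z_eq hv
  rw [pk _ hv _ _ qK] at l ms mp
  have cv : T.c (inl v) ≠ (s0.dat K).pin v q ∧
      (st (inl v)).f (st (inl v)).q ≠ (s0.dat K).pin v q := by
    rw [z] at l
    by_cases j : inl v = T.r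
    · rw [j, T.c_r, h.r, r.1, s0.hole]; omega
    · rw [h.f_par hv j, and_self, ← col_p_self hv j, h.col_l (T.p_mem _ hv j) (z ▸ (st _).real)]
      rcases (iv _ (T.p_mem _ hv j)).p1 v q with i | i
      exacts [by omega, i.2.2.2]
  have fl := ((st (inl v)).fill (K := K) l ms fun m a b i => ?_).2
  swap
  · have l' : (st (inl v)).pin (st (inl v)).z m < D := i ▸ l
    rcases (st (inl v)).pin_cases (st (inl v)).z m with j | j
    · omega
    · exact mp m a (fun n => b (n ▸ c)) (C.mem_sl.1 j.2.2.2.1).1.symm ((St.port_pin l').trans i)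
  have hz := (st (inl v)).hole
  rw [z] at l fl hz
  refine ⟨l, _, ⟨iv _ hv, hz.ge,
    fun u a x b c d e => h.chg hK np hv a b c (d ▸ l) (d ▸ e.symm) (d ▸ cv.1),
    fun w hw e he fr e1 e2 ⟨d', i, s⟩ => ?_⟩, fl⟩
  obtain ⟨a1, a2⟩ := C.mem_sl.1 he
  obtain ⟨u1, u2⟩ := C.sub K hK w (C.F_sub hw)
  obtain ⟨t, p⟩ := St.pass_of (s := st (inl v)) (d := d') hK hw he (e1 ▸ l) (e1 ▸ cv.2.symm)
    (fun m a b => by have := ms m a b; rwa [z, ← e1] at this)
    (fun m a b c => by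
      have := mp m a (fun n => b (n ▸ qK)) c
      rw [e1, z]; rwa [z] at this)
    (by rw [z]; exact i) (by rw [h.const np hv, e1]; exact s)
  have cl : ∀ k, w ∈ ((CL T L).filter fun p => C.cq p.2 = K).image Prod.snd := fun k =>
    mem_image.2 ⟨(e, w), mem_filter.2 ⟨mem_filter.2 ⟨mem_univ _, u1, a1.symm, a2, k⟩, u2⟩, rfl⟩
  rcases h.clo _ hv e t K w p with eR | eL
  swap
  · exact .inl (cl (.inl eL))
  have ze := h.z_eq eR
  have ce : T.c (inl e) = (s0.dat K).pin v q := (h.c_eq a2).trans e2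
  rcases (st (inl e)).port_cases e w with j | ⟨_, _, j⟩
  · have b : D < T.col (inl e) (inr (e, w)) := by
      rw [h.col_r eR, j, pk _ eR _ _ (C.F_sub hw)]
      rcases (iv _ eR).p1 e w with i | i
      exacts [by omega, absurd ((iv _ eR).lt _ i.2.2.1) (by omega)]
    exact .inl (cl (.inr ⟨eR, fun j => (IsB.mem_Dr.1 j).2.2.not_gt b, .inr b⟩))
  · obtain ⟨_, _, j1, j2, j3⟩ := j
    rw [u2, h.const np eR, ze] at j3
    rw [h.f_par eR fun n => by rw [n, T.c_r] at ce; omega, ce] at j2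
    have he := (st (inl e)).hole
    rw [ze] at he
    exact .inr ⟨_, _, iv _ eR, he.ge, fun u _ x b n =>
      (st (inl e)).full x (C.mem_sl.1 b).2 (ze.symm ▸ n), j2, j1, j3, fun u a n x b c d e =>
        h.chg hK np eR a b ((iv _ eR).free n x) c e (ce ▸ d.symm)⟩

theorem total (r : C.Root s0) {c B : ℕ} (h1 : 1 ≤ c) (h2 : 5 * c + 1 ≤ B) :
    T.Cost c ≤ T.Gain B L := by
  have a1 := h.dd_le
  have a2 := Nat.mul_le_mul_left c h.tt_le
  have a3 := h.cl_le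
  have a4 := Nat.mul_le_mul_left B h.pc_le
  have key : c * (TT T st).card + (DD T st).card ≤ (CL T L).card + B * (PC T).card := by
    rw [card_eq_sum_card_fiberwise (s := TT T st) (t := C.𝒦) (f := fun t => C.cq t.1.2)
        fun t k => (C.hU _ (mem_filter.1 (mem_coe.1 k)).2.1).1,
      card_eq_sum_card_fiberwise (s := DD T st) (t := C.𝒦) (f := fun t => C.cq t.1.2)
        fun t k => (C.hU _ (mem_filter.1 (mem_coe.1 k)).2.1).1,
      card_eq_sum_card_fiberwise (s := CL T L) (t := C.𝒦) (f := fun t => C.cq t.2)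
        fun t k => (C.hU _ (mem_filter.1 (mem_coe.1 k)).2.1).1,
      card_eq_sum_card_fiberwise (s := PC T) (t := C.𝒦) (f := fun x => (kx T st x).1)
        fun x k => (h.px_spec k).hK, mul_sum, mul_sum, ← sum_add_distrib, ← sum_add_distrib]
    refine sum_le_sum fun K hK => ?_
    change _ ≤ _ + B * (PX T st K).card
    by_cases np : PX T st K = ∅
    · obtain ⟨b1, b2⟩ := h.caseN hK r np
      rw [b1, card_empty]; omega
    · obtain ⟨b1, b2⟩ := h.caseP hK (r.2 K hK).1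
      have := card_pos.2 (nonempty_iff_ne_empty.2 np)
      obtain ⟨c, rfl⟩ := Nat.exists_eq_add_of_le' h1
      nlinarith [Nat.mul_le_mul_left c b1, Nat.mul_le_mul_right (PX T st K).card h2,
        Nat.mul_le_mul_left c this]
  rw [Tr.Cost, Tr.Gain, sum_add_distrib, ← mul_sum]
  omega

end Tw

theorem kside (C : Cx G D) (hd : ∀ v, (nb G v).card ≤ D + 1) {s0 : C.St} (h0 : C.Root s0)
    {ι : Type} (mb : ι → PV V → Prop) (cl : PV V → ι) (hcl : ∀ u, mb (cl u) u)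
    (E : PV V × PV V × (PV V → ℕ) → ℕ → PV V × PV V × (PV V → ℕ) → ℕ → PV V → Prop)
    (pf : PV V → PV V → ℕ) {c B : ℕ} (h1 : 1 ≤ c) (h2 : 5 * c + 1 ≤ B) :
    ∃ (T : Tr (PG G C.U C.P) D) (q : ι → PV V), IsB T ∧ T.Dm = PD C.U C.P ∧ T.S2 = ∅ ∧
      Own T mb cl q (T.El E) pf ∧ T.Cost c ≤ T.Gain B (T.Late mb cl q (T.El E)) := by
  obtain ⟨T, st, q, h, o⟩ := exists_tw hd s0 h0.1 mb cl hcl E pf
  exact ⟨T, q, h.a, h.dm, h.s2, o, h.total h0 h1 h2⟩

end Cx

end Pool.Agent.Lib.MP_12eaff_co.Frz.Acc2
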