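import Pool.Agent.Lib.MP_12eaff_co.Frz.F.Ifc

set_option autoImplicit false
set_option linter.unusedSectionVars false

namespace Pool.Agent.Lib.MP_12eaff_co.Frz.Acc2

open Finset Pool.Agent.Lib.MP_12eaff_co.Frz.BK
open scoped Classical

variable {V : Type} [Fintype V] {G : SimpleGraph V} {D : ℕ}

/-- An event at the unvisited vertex `e`: the hole `z` takes the colour of `e`, and `e` becomes
the hole.  Ports keep the colour of `s(z)` or are blank, except ports of `e` and of `r1`. -/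
structure EV (T : Tr G D) (z e r1 : V) (f : V → ℕ) : Prop where
  zR : z ∈ T.R
  eR : e ∉ T.R
  eD : e ∉ T.Dm
  cz : z ≠ T.r → T.c z ≠ T.c e
  real : ∀ m, m ∉ T.Dm → f m = shift D (T.col z) z e m
  port : ∀ m ∈ T.Dm, f m = T.col z m ∨ D < f m ∨ ∀ a, G.Adj a m → a = e ∨ a = r1
  hc : ∀ y, y ∉ T.Dm → HC G D ⟨{e, y}, univ.filter fun m => D < f m⟩ e f

/-- The vertex has a virtual event. -/
def Tr.Vev (T : Tr G D) (e : V) : Prop := ∃ z r1 f, EV T z e r1 f ∧ ¬ G.Adj z e

/-- As `UThm`, but only the ports of late vertices with a virtual event give units. -/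
def UThm3 (D c B : ℕ) : Prop :=
  ∀ (V : Type) [Fintype V] (G : SimpleGraph V) (U P : Finset V), MC G D →
    (∀ v, v ∈ U ↔ ∃ K, IsClq G K ∧ K.card = D ∧ v ∈ K) →
    ∃ (ι : Type) (mb : ι → PV V → Prop) (cl : PV V → ι)
      (E : PV V × PV V × (PV V → ℕ) → ℕ → PV V × PV V × (PV V → ℕ) → ℕ → PV V → Prop)
      (pf : PV V → PV V → ℕ), (∀ u, mb (cl u) u) ∧
      ∀ (T : Tr (PG G U P) D) (q : ι → PV V), IsB T → T.Dm = PD U P → T.S2 = ∅ →
        Own T mb cl q (T.El E) pf →
          T.Gain B ((T.Late mb cl q (T.El E)).filter T.Vev) < T.Cost c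

end Pool.Agent.Lib.MP_12eaff_co.Frz.Acc2
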