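import Pool.Agent.Lib.MP_12eaff_co.Frz.FB.Defs
import Pool.Agent.Lib.MP_12eaff_co.Frz.Acc2.PG
import Pool.Agent.Lib.MP_12eaff_co.Frz.Pot

set_option autoImplicit false
set_option linter.unusedSectionVars false

namespace Pool.Agent.Lib.MP_12eaff_co.Frz.Acc2

open Finset Pool.Agent.Lib.MP_12eaff_co.Frz.BK
open scoped Classical

variable {V : Type} [Fintype V] {G : SimpleGraph V} {D : ℕ} {U P : Finset V}

theorem stat_pg (h : MC G D) : AT.Stat (PG G U P) D (PD U P) := PG_stat h.cr.stat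

theorem nok_pg (h : MC G D) (hD : 1 ≤ D)
    (hU : ∀ v, v ∈ U ↔ ∃ K, IsClq G K ∧ K.card = D ∧ v ∈ K) :
    FB.NoK (PG G U P) D (PD U P) := fun Q k r => by
  obtain ⟨Q', a, b, c⟩ := PG_clq k r
  have := h.cf Q' a
  by_contra n
  obtain ⟨v, p⟩ := card_pos.1 (by omega : 0 < Q'.card)
  exact c v p (mem_union_left _ ((hU v).2 ⟨Q', a, by omega, p⟩))

theorem deg_pg (hd : ∀ v, (nb G v).card ≤ D + 1) {x : PV V} (k : x ∉ PD U P) :
    (nb (PG G U P) x).card ≤ D + 1 := by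
  obtain ⟨a, rfl, _⟩ := PD_real k
  exact (PG_deg a).trans (hd a)

end Pool.Agent.Lib.MP_12eaff_co.Frz.Acc2
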