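import Pool.Agent.Lib.MP_12eaff_co.Frz.F.Defs

set_option autoImplicit false
set_option linter.unusedSectionVars false

namespace Pool.Agent.Lib.MP_12eaff_co.Frz.Acc2

open Finset
open scoped Classical

namespace Fr

variable {V : Type} [Fintype V] {X : Fr V} {D : ℕ} {d : Dat V} {f g : V → ℕ}

namespace L1

theorem see_upd {z w : V} (n : z ∉ X.sl w) (y c : ℕ) :
    X.See (Function.update f z y) w c ↔ X.See f w c := by
  unfold See
  refine exists_congr fun a => and_congr_right fun ha => ?_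
  rw [Function.update_of_ne (by rintro rfl; exact n ha)]

theorem mono_upd {z w : V} (n : z ∉ X.sl w) (y c : ℕ) :
    X.Mono (Function.update f z y) w c ↔ X.Mono f w c := by
  unfold Mono
  refine exists_congr fun a => and_congr_right fun ha => exists_congr fun b =>
    and_congr_right fun hb => ?_
  rw [Function.update_of_ne (by rintro rfl; exact n ha),
    Function.update_of_ne (by rintro rfl; exact n hb)]

theorem mono_upd_see {z w : V} {y c : ℕ} (h : X.Mono (Function.update f z y) w c) :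
    X.See f w c := by
  obtain ⟨a, ha, b, hb, ab, e, e'⟩ := h
  by_cases az : a = z
  · subst az
    rw [Function.update_of_ne ab.symm] at e'
    exact ⟨b, hb, e'⟩
  · rw [Function.update_of_ne az] at e
    exact ⟨a, ha, e⟩

theorem three {S : Finset V} (h : S.card ≤ 2) {a b c : V} (ha : a ∈ S) (hb : b ∈ S) (hc : c ∈ S) :
    a = b ∨ a = c ∨ b = c := by
  by_contra n
  rw [not_or, not_or] at n
  have : 2 < S.card := two_lt_card_iff.2 ⟨a, b, c, ha, hb, hc, n.1, n.2.1, n.2.2⟩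
  omega

theorem see3 (ok : X.OK) {w : V} (hw : w ∈ X.F) {a b c : ℕ} (ha : X.See f w a) (hb : X.See f w b)
    (hc : X.See f w c) : a = b ∨ a = c ∨ b = c := by
  obtain ⟨x, hx, rfl⟩ := ha
  obtain ⟨y, hy, rfl⟩ := hb
  obtain ⟨z, hz, rfl⟩ := hc
  rcases three (ok.two w hw) hx hy hz with e | e | e <;> simp [e]

theorem mono1 (ok : X.OK) {w : V} (hw : w ∈ X.F) {a b : ℕ} (ha : X.Mono f w a)
    (hb : X.See f w b) : a = b := by
  obtain ⟨x, hx, y, hy, xy, e1, e2⟩ := ha
  obtain ⟨z, hz, rfl⟩ := hb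
  rcases three (ok.two w hw) hx hy hz with e | e | e
  · exact absurd e xy
  · rw [← e, e1]
  · rw [← e, e2]

/-- A member with an uncoloured slot sees at most one colour. -/
theorem see1 (ok : X.OK) {q z : V} (hq : q ∈ X.F) (hs : z ∈ X.sl q) (hz : D ≤ f z) {a c : ℕ}
    (ha : a < D) (hc : c < D) (k : X.See f q a) (k' : X.See f q c) : a = c := by
  rcases see3 ok hq k k' ⟨z, hs, rfl⟩ with e | e | e <;> omega

theorem av_self (h : X.Inv D d f) (w z : V) (k : d.pin z w < D) : f z ≠ d.pin z w := by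
  rcases h.p1 z w with e | e
  · omega
  · exact e.2.2.2

theorem hd_not (h : X.Inv D d f) {a : ℕ} (ha : a ∈ d.A)
    (av : ∀ z ∈ X.sl (d.hd a), d.pin z (d.hd a) < D → g z ≠ d.pin z (d.hd a)) :
    ¬ X.See g (d.hd a) a := by
  rintro ⟨z, hz, e⟩
  have p := (h.p2 a ha).2 z hz
  exact av z hz (by rw [p]; exact h.lt a ha) (by rw [p, e])

theorem rt_not (ok : X.OK) (h : X.Inv D d f) (hη : d.η < D) {w : V} (hw : w ∈ d.Rt)
    (av : ∀ z ∈ X.sl w, d.pin z w < D → g z ≠ d.pin z w) : ¬ X.Mono g w d.η := by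
  intro m
  rcases (h.p3 hη).2 w hw with k | ⟨z, hz, e⟩
  · obtain ⟨x, hx, y, hy, xy, -⟩ := m
    have : 1 < (X.sl w).card := one_lt_card.2 ⟨x, hx, y, hy, xy⟩
    omega
  · exact av z hz (by rw [e]; exact hη) (by rw [e]; exact (mono1 ok (h.sub hw) m ⟨z, hz, rfl⟩).symm)

theorem two_of {F S : Finset V} {P : V → Prop} [DecidablePred P] (hS : S ⊆ F) (c : 2 ≤ S.card)
    (n : ∀ w ∈ S, ¬ P w) : (F.filter P).card + 2 ≤ F.card := by
  have : Disjoint (F.filter P) S := disjoint_right.2 fun w hw k => n w hw (mem_filter.1 k).2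
  have := card_le_card (union_subset (filter_subset P F) hS)
  rw [card_union_of_disjoint ‹_›] at this
  omega

theorem two_out {F : Finset V} {P : V → Prop} [DecidablePred P] {u v : V} (hu : u ∈ F) (hv : v ∈ F)
    (uv : u ≠ v) (nu : ¬ P u) (nv : ¬ P v) : (F.filter P).card + 2 ≤ F.card :=
  two_of (S := {u, v}) (by simp [insert_subset_iff, hu, hv]) (card_pair uv).ge (by simp [nu, nv])

theorem card_soft (ok : X.OK) (h : X.Inv D d f) : (X.F \ d.Rt).card + d.Rt.card = 13 := by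
  rw [card_sdiff_add_card_eq_card h.sub, ok.card]

theorem mem_ns {Rt : Finset V} {y : ℕ} {w : V} :
    w ∈ X.Ns Rt f y ↔ (w ∈ X.F ∧ w ∉ Rt) ∧ ¬ X.See f w y := by
  simp [Ns]

end L1

open L1

theorem locV (ok : X.OK) (h : X.Inv D d f)
    (av : ∀ w ∈ X.F, ∀ z ∈ X.sl w, d.pin z w < D → g z ≠ d.pin z w)
    (gn : ∀ κ < D, ((X.F.biUnion X.sl).filter fun z => g z = κ ∧ f z ≠ κ).card ≤ 2) :
    X.Valid D g := by
  obtain ⟨N, cN, hN⟩ : ∃ N : ℕ → Finset V, (∀ κ < D, (N κ).card ≤ 2) ∧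
      ∀ κ, ∀ w ∈ X.F, w ∉ N κ → ∀ z ∈ X.sl w, g z = κ → f z = κ := by
    refine ⟨fun κ => X.F.filter fun w => ∃ z ∈ X.sl w, g z = κ ∧ f z ≠ κ, fun κ hκ => ?_,
      fun κ w hw n z hz e => ?_⟩
    · refine le_trans (card_le_card_of_forall_subsingleton (fun w z => z ∈ X.sl w) ?_ ?_) (gn κ hκ)
      · intro w hw
        obtain ⟨hw, z, hz, e⟩ := mem_filter.1 hw
        exact ⟨z, mem_filter.2 ⟨mem_biUnion.2 ⟨w, hw, hz⟩, e⟩, hz⟩
      · intro z _ w hw w' hw'
        exact ok.dis w (mem_filter.1 hw.1).1 w' (mem_filter.1 hw'.1).1 z hw.2 hw'.2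
    · by_contra k
      exact n (mem_filter.2 ⟨hw, z, hz, e, k⟩)
  have sN : ∀ κ, ∀ w ∈ X.F, w ∉ N κ → X.See g w κ → X.See f w κ :=
    fun κ w hw n ⟨z, hz, e⟩ => ⟨z, hz, hN κ w hw n z hz e⟩
  have mN : ∀ κ, ∀ w ∈ X.F, w ∉ N κ → X.Mono g w κ → X.Mono f w κ :=
    fun κ w hw n ⟨z, hz, z', hz', zz, e, e'⟩ =>
      ⟨z, hz, z', hz', zz, hN κ w hw n z hz e, hN κ w hw n z' hz' e'⟩
  have hF : ∀ a ∈ d.A, d.hd a ∈ X.F := fun a ha => h.sub (h.p2 a ha).1
  have hA : ∀ a ∈ d.A, ¬ X.See g (d.hd a) a := fun a ha => hd_not h ha (av _ (hF a ha))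
  have nS : ∀ y < D, y ∉ d.A → ∃ w ∈ X.F, w ∉ d.Rt ∧ ¬ X.See g w y := fun y hy n => by
    have := h.soft.s1 y hy n
    have := cN y hy
    obtain ⟨w, hw, nw⟩ := exists_mem_notMem_of_card_lt_card
      (show (N y).card < (X.Ns d.Rt f y).card by omega)
    rw [mem_ns] at hw
    exact ⟨w, hw.1.1, hw.1.2, fun k => hw.2 (sN y w hw.1.1 nw k)⟩
  refine ⟨fun y hy => ?_, fun y hy z hz yz => ?_, fun y hy => ?_⟩
  · by_cases a : y ∈ d.A
    · exact ⟨_, hF y a, hA y a⟩
    · obtain ⟨w, hw, -, k⟩ := nS y hy a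
      exact ⟨w, hw, k⟩
  · by_cases a : y ∈ d.A <;> by_cases b : z ∈ d.A
    · exact two_out (hF y a) (hF z b) (fun e => yz (h.inj y a z b e)) (fun k => hA y a k.1)
        fun k => hA z b k.2
    · obtain ⟨w, hw, nw, k⟩ := nS z hz b
      exact two_out (hF y a) hw (fun e => nw (e ▸ (h.p2 y a).1)) (fun k => hA y a k.1)
        fun k' => k k'.2
    · obtain ⟨w, hw, nw, k⟩ := nS y hy a
      exact two_out (hF z b) hw (fun e => nw (e ▸ (h.p2 z b).1)) (fun k => hA z b k.2)
        fun k' => k k'.1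
    · have k := h.soft.s2 y hy z hz a b yz
      refine two_of (S := ((X.F \ d.Rt).filter fun w => ¬ (X.See f w y ∧ X.See f w z)) \
        (N y ∪ N z)) (fun w hw => (mem_sdiff.1 (mem_filter.1 (mem_sdiff.1 hw).1).1).1) ?_ ?_
      · have := le_card_sdiff (N y ∪ N z)
          ((X.F \ d.Rt).filter fun w => ¬ (X.See f w y ∧ X.See f w z))
        have := card_union_le (N y) (N z)
        have := cN y hy
        have := cN z hz
        omega
      · intro w hw k
        rw [mem_sdiff, mem_filter, mem_sdiff, mem_union, not_or] at hw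
        exact hw.1.2 ⟨sN y w hw.1.1.1 hw.2.1 k.1, sN z w hw.1.1.1 hw.2.2 k.2⟩
  · by_cases e : y = d.η
    · subst e
      have := card_soft ok h
      have := (h.p3 hy).1
      refine le_trans (card_le_card (t := X.F \ d.Rt) fun w hw => ?_) (by omega)
      rw [mem_filter] at hw
      exact mem_sdiff.2 ⟨hw.1, fun k => rt_not ok h hy k (av w hw.1) hw.2⟩
    · have := h.soft.s3 y hy e
      have := h.r3
      have := cN y hy
      have := card_union_le d.Rt (N y)
      have := card_union_le ((X.F \ d.Rt).filter fun w => X.Mono f w y) (d.Rt ∪ N y)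
      refine le_trans (card_le_card
        (t := ((X.F \ d.Rt).filter fun w => X.Mono f w y) ∪ (d.Rt ∪ N y)) fun w hw => ?_) (by omega)
      rw [mem_filter] at hw
      by_contra k
      rw [mem_union, mem_union, not_or, not_or, mem_filter, mem_sdiff] at k
      exact k.1 ⟨⟨hw.1, k.2.1⟩, mN y w hw.1 k.2.2 hw.2⟩

theorem valid_of_inv (ok : X.OK) (h : X.Inv D d f) : X.Valid D f :=
  locV ok h (fun w _ z _ => av_self h w z) fun κ _ => by simp

theorem forced (ok : X.OK) (h : X.Inv D d f) {q z : V} {a : ℕ} (ha : a < D) (hp : d.pin z q = a)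
    (_hz : D ≤ f z) (n : ¬ X.Valid D (Function.update f z a)) :
    (q = d.hd a ∧ ∀ w ∈ X.F, (∀ b ∈ d.A, w ≠ d.hd b) → X.See f w a) ∨
      (a = d.η ∧ q ≠ d.hd a ∧ X.See f q a ∧
        10 ≤ ((X.F \ d.Rt).filter fun w => X.Mono f w a).card) := by
  obtain ⟨qR, zq, aA, -⟩ := (h.p1 z q).resolve_left (by omega)
  rw [hp] at aA
  have qF := h.sub qR
  have off : ∀ w ∈ X.F, w ≠ q → z ∉ X.sl w := fun w hw e k => e (ok.dis w hw q qF z k zq)
  have hF : ∀ b ∈ d.A, d.hd b ∈ X.F := fun b hb => h.sub (h.p2 b hb).1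
  have hA : ∀ b ∈ d.A, ¬ X.See f (d.hd b) b := fun b hb => hd_not h hb fun z _ => av_self h _ z
  have hq : ∀ b ∈ d.A, d.hd b = q → b = a := fun b hb e => by
    rw [← hp, ← e, (h.p2 b hb).2 z (e ▸ zq)]
  by_contra k
  rw [not_or] at k
  obtain ⟨k1, k2⟩ := k
  -- a member that misses a heavy colour
  obtain ⟨t, ht, tinj⟩ : ∃ t : ℕ → V,
      (∀ b ∈ d.A, t b ∈ X.F ∧ ¬ X.See (Function.update f z a) (t b) b) ∧
      ∀ b ∈ d.A, ∀ c ∈ d.A, t b = t c → b = c := by
    by_cases e : q = d.hd a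
    · obtain ⟨w, hw, nh, nw⟩ : ∃ w ∈ X.F, (∀ b ∈ d.A, w ≠ d.hd b) ∧ ¬ X.See f w a := by
        by_contra k
        exact k1 ⟨e, fun w hw nh => by_contra fun nw => k ⟨w, hw, nh, nw⟩⟩
      refine ⟨fun b => if b = a then w else d.hd b, fun b hb => ?_, fun b hb c hc => ?_⟩
      · by_cases ba : b = a
        · subst ba
          simp only [if_true]
          exact ⟨hw, by rwa [see_upd (off w hw (e ▸ nh b hb))]⟩
        · simp only [if_neg ba]
          exact ⟨hF b hb, by
            rw [see_upd (off _ (hF b hb) fun e => ba (hq b hb e))]; exact hA b hb⟩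
      · by_cases ba : b = a <;> by_cases ca : c = a <;> simp only [ba, ca, if_true, if_false]
        · exact fun _ => trivial
        · exact fun e => absurd e (nh c hc)
        · exact fun e => absurd e.symm (nh b hb)
        · exact h.inj b hb c hc
    · refine ⟨d.hd, fun b hb => ⟨hF b hb, ?_⟩, h.inj⟩
      rw [see_upd (off _ (hF b hb) fun e' => e (by rw [← e', hq b hb e']))]
      exact hA b hb
  have nS : ∀ y, ∀ w ∈ X.Ns d.Rt f y, w ∈ X.F ∧ ¬ X.See (Function.update f z a) w y :=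
    fun y w hw => by
      rw [mem_ns] at hw
      exact ⟨hw.1.1, by rw [see_upd (off w hw.1.1 fun e => hw.1.2 (e ▸ qR))]; exact hw.2⟩
  refine n ⟨fun y hy => ?_, fun y hy y' hy' yy => ?_, fun y hy => ?_⟩
  · by_cases b : y ∈ d.A
    · exact ⟨_, (ht y b).1, (ht y b).2⟩
    · have := h.soft.s1 y hy b
      obtain ⟨w, hw⟩ := card_pos.1 (show 0 < (X.Ns d.Rt f y).card by omega)
      exact ⟨w, (nS y w hw).1, (nS y w hw).2⟩
  · by_cases b : y ∈ d.A
    · by_cases c : y' ∈ d.A
      · exact two_out (ht y b).1 (ht y' c).1 (fun e => yy (tinj y b y' c e))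
          (fun k => (ht y b).2 k.1) fun k => (ht y' c).2 k.2
      · have := h.soft.s1 y' hy' c
        exact two_of (S := X.Ns d.Rt f y') (fun w hw => (nS _ w hw).1) (by omega)
          fun w hw k => (nS _ w hw).2 k.2
    · have := h.soft.s1 y hy b
      exact two_of (S := X.Ns d.Rt f y) (fun w hw => (nS _ w hw).1) (by omega)
        fun w hw k => (nS _ w hw).2 k.1
  · by_cases e : y = d.η
    · subst e
      have cs := card_soft ok h
      have c3 := (h.p3 hy).1
      have ae : a = d.η := by simpa [h.hard hy] using aA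
      have sub : ∀ w ∈ X.F, w ≠ q → X.Mono (Function.update f z a) w d.η →
          w ∉ d.Rt ∧ X.Mono f w d.η := fun w hw e m => by
        rw [mono_upd (off w hw e)] at m
        exact ⟨fun k => rt_not ok h hy k (fun z _ => av_self h w z) m, m⟩
      by_cases sq : X.See f q a
      · have nq : q ≠ d.hd a := fun e => hA a aA (e ▸ sq)
        have : ¬ 10 ≤ ((X.F \ d.Rt).filter fun w => X.Mono f w a).card :=
          fun k => k2 ⟨ae, nq, sq, k⟩
        have := card_insert_le q ((X.F \ d.Rt).filter fun w => X.Mono f w a)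
        refine le_trans (card_le_card
          (t := insert q ((X.F \ d.Rt).filter fun w => X.Mono f w a)) fun w hw => ?_) (by omega)
        rw [mem_filter] at hw
        rw [mem_insert, mem_filter, mem_sdiff]
        by_cases e : w = q
        · exact Or.inl e
        · exact Or.inr ⟨⟨hw.1, (sub w hw.1 e hw.2).1⟩, ae ▸ (sub w hw.1 e hw.2).2⟩
      · refine le_trans (card_le_card (t := X.F \ d.Rt) fun w hw => ?_) (by omega)
        rw [mem_filter] at hw
        by_cases e : w = q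
        · exact absurd (ae ▸ e ▸ mono_upd_see hw.2) sq
        · exact mem_sdiff.2 ⟨hw.1, (sub w hw.1 e hw.2).1⟩
    · have := h.soft.s3 y hy e
      have := h.r3
      have := card_union_le ((X.F \ d.Rt).filter fun w => X.Mono f w y) d.Rt
      refine le_trans (card_le_card
        (t := ((X.F \ d.Rt).filter fun w => X.Mono f w y) ∪ d.Rt) fun w hw => ?_) (by omega)
      rw [mem_filter] at hw
      by_contra k
      rw [mem_union, not_or, mem_filter, mem_sdiff] at k
      exact k.1 ⟨⟨hw.1, k.2⟩, (mono_upd (off w hw.1 fun e => k.2 (e ▸ qR)) a y).1 hw.2⟩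

theorem allow3 (ok : X.OK) (h : X.Inv D d f) {z : V} {a : ℕ} (ha : a ∈ d.A)
    (hs : z ∈ X.sl (d.hd a)) (hz : D ≤ f z) :
    (X.F.filter fun w => ¬ X.Allow D d f a w).card ≤ 3 := by
  have hF := h.sub (h.p2 a ha).1
  by_cases k : ∃ j < D, X.See f (d.hd a) j ∧ (X.Ns d.Rt f j).card ≤ 3
  · obtain ⟨j, hj, sj, cj⟩ := k
    refine le_trans (card_le_card fun w hw => ?_) cj
    by_contra nw
    refine (mem_filter.1 hw).2 fun j' hj' _ sj' hw' => ?_
    exact absurd (see1 ok hF hs hz hj' hj sj' sj ▸ hw') nw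
  · rw [filter_false_of_mem]
    · simp
    · intro w _ nw
      refine nw fun j hj _ sj _ => ?_
      by_contra c
      exact k ⟨j, hj, sj, by omega⟩

theorem exits (ok : X.OK) (h : X.Inv D d f) {z : V} {a : ℕ} (ha : d.A = {a})
    (hs : z ∈ X.sl (d.hd a)) (hz : D ≤ f z) :
    2 ≤ (X.F.filter fun w => w ≠ d.hd a ∧ ¬ X.Mono f w a ∧ X.Allow D d f a w).card := by
  have aA : a ∈ d.A := by simp [ha]
  have hR := (h.p2 a aA).1
  have hF := h.sub hR
  by_cases k : ∃ j < D, j ∉ d.A ∧ X.See f (d.hd a) j ∧ (X.Ns d.Rt f j).card ≤ 3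
  · obtain ⟨j, hj, jA, sj, cj⟩ := k
    have := card_soft ok h
    have := h.r3
    have := le_card_sdiff (X.Ns d.Rt f j) (X.F \ d.Rt)
    refine le_trans (by omega) (card_le_card (s := (X.F \ d.Rt) \ X.Ns d.Rt f j) fun w hw => ?_)
    rw [mem_sdiff, mem_sdiff] at hw
    have sw : X.See f w j := by_contra fun k => hw.2 (mem_ns.2 ⟨hw.1, k⟩)
    refine mem_filter.2 ⟨hw.1.1, fun e => hw.1.2 (e ▸ hR),
      fun m => jA (mono1 ok hw.1.1 m sw ▸ aA), fun j' hj' _ sj' hw' => ?_⟩
    exact absurd (see1 ok hF hs hz hj' hj sj' sj ▸ hw') hw.2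
  · have := (valid_of_inv ok h).mo a (h.lt a aA)
    have := ok.card
    have := card_insert_le (d.hd a) (X.F.filter fun w => X.Mono f w a)
    have := le_card_sdiff (insert (d.hd a) (X.F.filter fun w => X.Mono f w a)) X.F
    refine le_trans (by omega) (card_le_card
      (s := X.F \ insert (d.hd a) (X.F.filter fun w => X.Mono f w a)) fun w hw => ?_)
    rw [mem_sdiff, mem_insert, not_or, mem_filter] at hw
    refine mem_filter.2 ⟨hw.1, hw.2.1, fun m => hw.2.2 ⟨hw.1, m⟩, fun j hj jA sj _ => ?_⟩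
    by_contra c
    exact k ⟨j, hj, jA, sj, by omega⟩

end Fr

end Pool.Agent.Lib.MP_12eaff_co.Frz.Acc2
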