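import Pool.Agent.Lib.MP_12eaff_co.Frz.F.Defs

set_option autoImplicit false
set_option linter.unusedSectionVars false

namespace Pool.Agent.Lib.MP_12eaff_co.Frz.Acc2

open Finset
open scoped Classical

namespace Fr

variable {V : Type} [Fintype V] {X : Fr V} {D : ℕ} {d : Dat V} {f g : V → ℕ}

theorem see_off {w z : V} (n : z ∉ X.sl w) (y c : ℕ) :
    X.See (Function.update f z y) w c ↔ X.See f w c := by
  unfold See
  refine exists_congr fun a => and_congr_right fun ha => ?_
  rw [Function.update_of_ne (fun e : a = z => n (e ▸ ha))]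

theorem mono_off {w z : V} (n : z ∉ X.sl w) (y c : ℕ) :
    X.Mono (Function.update f z y) w c ↔ X.Mono f w c := by
  unfold Mono
  refine exists_congr fun a => and_congr_right fun ha =>
    exists_congr fun b => and_congr_right fun hb => ?_
  rw [Function.update_of_ne (fun e : a = z => n (e ▸ ha)),
    Function.update_of_ne (fun e : b = z => n (e ▸ hb))]

theorem see_up {w z : V} {y c : ℕ} (h : X.See (Function.update f z y) w c) :
    c = y ∨ X.See f w c := by
  obtain ⟨a, ha, e⟩ := h
  by_cases az : a = z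
  · subst az
    rw [Function.update_self] at e
    exact Or.inl e.symm
  · rw [Function.update_of_ne az] at e
    exact Or.inr ⟨a, ha, e⟩

theorem mono_up {w z : V} {y c : ℕ} (h : X.Mono (Function.update f z y) w c) :
    X.Mono f w c ∨ (c = y ∧ X.See f w y) := by
  obtain ⟨a, ha, b, hb, ab, e1, e2⟩ := h
  by_cases az : a = z
  · subst az
    rw [Function.update_self] at e1
    rw [Function.update_of_ne (Ne.symm ab)] at e2
    exact Or.inr ⟨e1.symm, b, hb, e2.trans e1.symm⟩
  · rw [Function.update_of_ne az] at e1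
    by_cases bz : b = z
    · subst bz
      rw [Function.update_self] at e2
      exact Or.inr ⟨e2.symm, a, ha, e1.trans e2.symm⟩
    · rw [Function.update_of_ne bz] at e2
      exact Or.inl ⟨a, ha, b, hb, ab, e1, e2⟩

theorem slot3 (ok : X.OK) {w a b c : V} (hw : w ∈ X.F) (ha : a ∈ X.sl w) (hb : b ∈ X.sl w)
    (hc : c ∈ X.sl w) (ab : a ≠ b) : c = a ∨ c = b := by
  by_contra n
  rw [not_or] at n
  have h3 : 2 < (X.sl w).card :=
    two_lt_card.2 ⟨a, ha, b, hb, c, hc, ab, Ne.symm n.1, Ne.symm n.2⟩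
  have := ok.two w hw
  omega

theorem see3 (ok : X.OK) {w : V} (hw : w ∈ X.F) {a b c : ℕ} (ha : X.See f w a)
    (hb : X.See f w b) (hc : X.See f w c) (ab : a ≠ b) : c = a ∨ c = b := by
  obtain ⟨x, hx, rfl⟩ := ha
  obtain ⟨y, hy, rfl⟩ := hb
  obtain ⟨z, hz, rfl⟩ := hc
  rcases slot3 ok hw hx hy hz (fun e => ab (by rw [e])) with e | e
  · exact Or.inl (by rw [e])
  · exact Or.inr (by rw [e])

theorem mono_see (ok : X.OK) {w : V} (hw : w ∈ X.F) {a b : ℕ} (ha : X.Mono f w a)
    (hb : X.See f w b) : b = a := by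
  obtain ⟨x, hx, y, hy, xy, e1, e2⟩ := ha
  obtain ⟨z, hz, rfl⟩ := hb
  rcases slot3 ok hw hx hy hz xy with e | e
  · rw [e, e1]
  · rw [e, e2]

theorem Mono.see {w : V} {a : ℕ} (h : X.Mono f w a) : X.See f w a := by
  obtain ⟨x, hx, -, -, -, e, -⟩ := h
  exact ⟨x, hx, e⟩

theorem see_hole (ok : X.OK) {q z : V} (hq : q ∈ X.F) (hs : z ∈ X.sl q) (hz : D ≤ f z)
    {a b : ℕ} (ha : a < D) (hb : b < D) (sa : X.See f q a) (sb : X.See f q b) : a = b := by
  by_contra n
  rcases see3 ok hq sa sb ⟨z, hs, rfl⟩ n with e | e <;> omega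

theorem soft_off (h : X.Soft D d f) {z : V} (n : ∀ w ∈ X.F, w ∉ d.Rt → z ∉ X.sl w) (y : ℕ) :
    X.Soft D d (Function.update f z y) := by
  have n' : ∀ w ∈ X.F \ d.Rt, z ∉ X.sl w := fun w hw =>
    n w (mem_sdiff.1 hw).1 (mem_sdiff.1 hw).2
  refine ⟨fun c hc hA => ?_, fun c hc e he hA hB ce => ?_, fun c hc hη => ?_⟩
  · refine (h.s1 c hc hA).trans (le_of_eq ?_)
    unfold Ns
    exact congrArg card (filter_congr fun w hw => by rw [see_off (n' w hw)])
  · refine (h.s2 c hc e he hA hB ce).trans (le_of_eq ?_)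
    exact congrArg card (filter_congr fun w hw => by rw [see_off (n' w hw), see_off (n' w hw)])
  · refine (le_of_eq ?_).trans (h.s3 c hc hη)
    exact congrArg card (filter_congr fun w hw => by rw [mono_off (n' w hw)])

theorem soft_unc (h : X.Soft D d f) (u : V) : X.Soft D d (Function.update f u D) := by
  have s : ∀ w c, c < D → X.See (Function.update f u D) w c → X.See f w c := fun w c hc hs =>
    (see_up hs).resolve_left (by omega)
  refine ⟨fun c hc hA => ?_, fun c hc e he hA hB ce => ?_, fun c hc hη => ?_⟩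
  · refine (h.s1 c hc hA).trans (card_le_card fun w hw => ?_)
    unfold Ns at hw ⊢
    rw [mem_filter] at hw ⊢
    exact ⟨hw.1, fun t => hw.2 (s w c hc t)⟩
  · refine (h.s2 c hc e he hA hB ce).trans (card_le_card fun w hw => ?_)
    rw [mem_filter] at hw ⊢
    exact ⟨hw.1, fun t => hw.2 ⟨s w c hc t.1, s w e he t.2⟩⟩
  · refine (card_le_card fun w hw => ?_).trans (h.s3 c hc hη)
    rw [mem_filter] at hw ⊢
    exact ⟨hw.1, (mono_up hw.2).resolve_right fun t => by omega⟩

theorem inv_move (h : X.Inv D d f) {z u : V} (hu : f u < D)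
    (np : ∀ w, d.pin z w ≠ f u) (s : X.Soft D d (Function.update f z (f u))) :
    X.Inv D d (shift D f z u) := by
  refine ⟨h.lt, h.hard, h.sub, h.r3, fun a w => ?_, h.p2, h.inj, h.p3, h.nh, soft_unc s u⟩
  rcases h.p1 a w with e | ⟨h1, h2, h3, h4⟩
  · exact Or.inl e
  refine Or.inr ⟨h1, h2, h3, ?_⟩
  unfold shift
  by_cases au : a = u
  · subst au
    rw [Function.update_self]
    have := h.lt _ h3
    omega
  · rw [Function.update_of_ne au]
    by_cases az : a = z
    · subst az
      rw [Function.update_self]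
      exact (np w).symm
    · rw [Function.update_of_ne az]
      exact h4

theorem card_ins {s t : Finset V} {q : V} (h : ∀ w ∈ s, w ≠ q → w ∈ t) :
    s.card ≤ t.card + 1 := by
  refine le_trans (card_le_card (t := insert q t) fun w hw => ?_) (card_insert_le _ _)
  by_cases e : w = q
  · exact e ▸ mem_insert_self _ _
  · exact mem_insert_of_mem (h w hw e)

/-- The three ways in which colouring the hole `z`, a slot of `q`, breaks the safe level. -/
theorem bad_cases (ok : X.OK) (h : X.Soft D d f) {q z : V} (hq : q ∈ X.F) (hs : z ∈ X.sl q)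
    {y : ℕ} (n : ¬ X.Soft D d (Function.update f z y)) :
    (y ∉ d.A ∧ ¬ X.See f q y ∧ (X.Ns d.Rt f y).card ≤ 3) ∨
    (∃ j < D, y ∉ d.A ∧ j ∉ d.A ∧ y ≠ j ∧ X.See f q j ∧
      ((X.F \ d.Rt).filter fun w => ¬ (X.See f w y ∧ X.See f w j)).card ≤ 6) ∨
    (X.See f q y ∧ 5 ≤ ((X.F \ d.Rt).filter fun w => X.Mono f w y).card) := by
  by_contra c
  rw [not_or, not_or] at c
  obtain ⟨c1, c2, c3⟩ := c
  have off : ∀ w ∈ X.F \ d.Rt, w ≠ q → z ∉ X.sl w := fun w hw e hz =>
    e (ok.dis w (mem_sdiff.1 hw).1 q hq z hz hs)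
  have key : ∀ a < D, ∀ b < D, a ∉ d.A → b ∉ d.A → a ≠ b → b ≠ y →
      6 ≤ ((X.F \ d.Rt).filter fun w =>
        ¬ (X.See (Function.update f z y) w a ∧ X.See (Function.update f z y) w b)).card := by
    intro a ha b hb hA hB ab bn
    have k : ∀ w ∈ (X.F \ d.Rt).filter fun w => ¬ (X.See f w a ∧ X.See f w b), w ≠ q →
        w ∈ (X.F \ d.Rt).filter fun w =>
          ¬ (X.See (Function.update f z y) w a ∧ X.See (Function.update f z y) w b) := by
      intro w hw e
      rw [mem_filter] at hw ⊢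
      refine ⟨hw.1, ?_⟩
      rw [see_off (off w hw.1 e), see_off (off w hw.1 e)]
      exact hw.2
    by_cases t : a = y ∧ X.See f q b
    · obtain ⟨rfl, t⟩ := t
      have h7 : ¬ ((X.F \ d.Rt).filter fun w => ¬ (X.See f w a ∧ X.See f w b)).card ≤ 6 :=
        fun l => c2 ⟨b, hb, hA, hB, ab, t, l⟩
      have := card_ins k
      omega
    · refine (h.s2 a ha b hb hA hB ab).trans (card_le_card fun w hw => ?_)
      by_cases e : w = q
      · subst e
        rw [mem_filter] at hw ⊢
        refine ⟨hw.1, fun u => ?_⟩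
        have sb := (see_up u.2).resolve_left bn
        rcases see_up u.1 with e | e
        · exact t ⟨e, sb⟩
        · exact hw.2 ⟨e, sb⟩
      · exact k w hw e
  refine n ⟨fun c hc hA => ?_, fun a ha b hb hA hB ab => ?_, fun c hc hη => ?_⟩
  · have k : ∀ w ∈ X.Ns d.Rt f c, w ≠ q → w ∈ X.Ns d.Rt (Function.update f z y) c := by
      intro w hw e
      unfold Ns at hw ⊢
      rw [mem_filter] at hw ⊢
      exact ⟨hw.1, by rw [see_off (off w hw.1 e)]; exact hw.2⟩
    by_cases t : c = y ∧ ¬ X.See f q c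
    · obtain ⟨rfl, t⟩ := t
      have h4 : ¬ (X.Ns d.Rt f c).card ≤ 3 := fun l => c1 ⟨hA, t, l⟩
      have := card_ins k
      omega
    · refine (h.s1 c hc hA).trans (card_le_card fun w hw => ?_)
      by_cases e : w = q
      · subst e
        unfold Ns at hw ⊢
        rw [mem_filter] at hw ⊢
        refine ⟨hw.1, fun u => ?_⟩
        rcases see_up u with e | e
        · exact t ⟨e, hw.2⟩
        · exact hw.2 e
      · exact k w hw e
  · by_cases bn : b = y
    · refine (key b hb a ha hB hA (Ne.symm ab) (fun e => ab (e.trans bn.symm))).trans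
        (le_of_eq (congrArg card (filter_congr fun w _ => ?_)))
      rw [and_comm]
    · exact key a ha b hb hA hB ab bn
  · have k : ∀ w ∈ (X.F \ d.Rt).filter fun w => X.Mono (Function.update f z y) w c, w ≠ q →
        w ∈ (X.F \ d.Rt).filter fun w => X.Mono f w c := by
      intro w hw e
      rw [mem_filter] at hw ⊢
      exact ⟨hw.1, (mono_off (off w hw.1 e) y c).1 hw.2⟩
    by_cases t : c = y ∧ X.See f q y
    · obtain ⟨rfl, t⟩ := t
      have h4 : ¬ 5 ≤ ((X.F \ d.Rt).filter fun w => X.Mono f w c).card := fun l => c3 ⟨t, l⟩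
      have := card_ins k
      omega
    · refine (card_le_card fun w hw => ?_).trans (h.s3 c hc hη)
      by_cases e : w = q
      · subst e
        rw [mem_filter] at hw ⊢
        exact ⟨hw.1, (mono_up hw.2).resolve_right t⟩
      · exact k w hw e

theorem bad_one (ok : X.OK) (h : X.Inv D d f) {z : V} (hz : D ≤ f z) {y y' : ℕ} (hy : y < D)
    (hy' : y' < D) (n : ¬ X.Soft D d (Function.update f z y))
    (n' : ¬ X.Soft D d (Function.update f z y')) : y = y' := by
  by_contra yy
  obtain ⟨q, hq, hR, hs⟩ : ∃ q ∈ X.F, q ∉ d.Rt ∧ z ∈ X.sl q := by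
    by_contra c
    exact n (soft_off h.soft (fun w hw hr hz => c ⟨w, hw, hr, hz⟩) y)
  have hq' : q ∈ X.F \ d.Rt := mem_sdiff.2 ⟨hq, hR⟩
  have n10 : 10 ≤ (X.F \ d.Rt).card := by
    have := card_sdiff_of_subset h.sub
    have := ok.card
    have := h.r3
    omega
  have mF : ∀ {w : V}, w ∈ X.F \ d.Rt → w ∈ X.F := fun hw => (mem_sdiff.1 hw).1
  have both : ∀ a b, ((X.F \ d.Rt).filter fun w => ¬ (X.See f w a ∧ X.See f w b)).card ≤ 6 →
      (X.F \ d.Rt).card ≤ ((X.F \ d.Rt).filter fun w => X.See f w a ∧ X.See f w b).card + 6 := by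
    intro a b l
    have := card_filter_add_card_filter_not (s := X.F \ d.Rt)
      (fun w => X.See f w a ∧ X.See f w b)
    omega
  have seer : ∀ j < D, j ∉ d.A →
      ((X.F \ d.Rt).filter fun w => X.See f w j).card + 3 ≤ (X.F \ d.Rt).card := by
    intro j hj hA
    have := card_filter_add_card_filter_not (s := X.F \ d.Rt) (fun w => X.See f w j)
    have h3 := h.soft.s1 j hj hA
    unfold Ns at h3
    omega
  have c12 : ∀ a b j, a < D → a ≠ b → ¬ X.See f q a → (X.Ns d.Rt f a).card ≤ 3 → b ≠ j →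
      X.See f q j →
      ((X.F \ d.Rt).filter fun w => ¬ (X.See f w b ∧ X.See f w j)).card ≤ 6 → False := by
    intro a b j _ ab na l bj sj l6
    have l7 := both b j l6
    have : ((X.F \ d.Rt).filter fun w => X.See f w b ∧ X.See f w j).card ≤
        (X.Ns d.Rt f a).card := by
      refine card_le_card fun w hw => ?_
      have hw' := mem_filter.1 hw
      refine mem_filter.2 ⟨hw'.1, fun u => ?_⟩
      rcases see3 ok (mF hw'.1) hw'.2.1 hw'.2.2 u bj with e | e
      · exact ab e
      · exact na (e ▸ sj)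
    omega
  have c13 : ∀ a b, a ≠ b → (X.Ns d.Rt f a).card ≤ 3 →
      5 ≤ ((X.F \ d.Rt).filter fun w => X.Mono f w b).card → False := by
    intro a b ab l l5
    have : ((X.F \ d.Rt).filter fun w => X.Mono f w b).card ≤ (X.Ns d.Rt f a).card := by
      refine card_le_card fun w hw => ?_
      have hw' := mem_filter.1 hw
      exact mem_filter.2 ⟨hw'.1, fun u => ab (mono_see ok (mF hw'.1) hw'.2 u)⟩
    omega
  have c23 : ∀ a j, j < D → j ∉ d.A → a ≠ j →
      ((X.F \ d.Rt).filter fun w => ¬ (X.See f w a ∧ X.See f w j)).card ≤ 6 →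
      5 ≤ ((X.F \ d.Rt).filter fun w => X.Mono f w j).card → False := by
    intro a j hj hA aj l6 l5
    have l7 := both a j l6
    have l3 := seer j hj hA
    have dj : Disjoint ((X.F \ d.Rt).filter fun w => X.See f w a ∧ X.See f w j)
        ((X.F \ d.Rt).filter fun w => X.Mono f w j) :=
      disjoint_left.2 fun w h1 h2 =>
        aj (mono_see ok (mF (mem_filter.1 h1).1) (mem_filter.1 h2).2 (mem_filter.1 h1).2.1)
    have e := card_union_of_disjoint dj
    have : (((X.F \ d.Rt).filter fun w => X.See f w a ∧ X.See f w j) ∪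
        ((X.F \ d.Rt).filter fun w => X.Mono f w j)).card ≤
        ((X.F \ d.Rt).filter fun w => X.See f w j).card := by
      refine card_le_card fun w hw => ?_
      rcases mem_union.1 hw with u | u
      · exact mem_filter.2 ⟨(mem_filter.1 u).1, (mem_filter.1 u).2.2⟩
      · exact mem_filter.2 ⟨(mem_filter.1 u).1, (mem_filter.1 u).2.see⟩
    omega
  rcases bad_cases ok h.soft hq hs n with ⟨a1, a2, a3⟩ | ⟨j, hj, a1, a2, a3, a4, a5⟩ | ⟨a1, a2⟩ <;>
    rcases bad_cases ok h.soft hq hs n' with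
      ⟨b1, b2, b3⟩ | ⟨k, hk, b1, b2, b3, b4, b5⟩ | ⟨b1, b2⟩
  · have l6 := h.soft.s2 y hy y' hy' a1 b1 yy
    have sub : ((X.F \ d.Rt).filter fun w => ¬ (X.See f w y ∧ X.See f w y')).card ≤
        (X.Ns d.Rt f y ∪ X.Ns d.Rt f y').card := by
      refine card_le_card fun w hw => ?_
      have hw' := mem_filter.1 hw
      rcases not_and_or.1 hw'.2 with u | u
      · exact mem_union_left _ (mem_filter.2 ⟨hw'.1, u⟩)
      · exact mem_union_right _ (mem_filter.2 ⟨hw'.1, u⟩)
    have e := card_union_add_card_inter (X.Ns d.Rt f y) (X.Ns d.Rt f y')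
    have p : 0 < (X.Ns d.Rt f y ∩ X.Ns d.Rt f y').card :=
      card_pos.2 ⟨q, mem_inter.2 ⟨mem_filter.2 ⟨hq', a2⟩, mem_filter.2 ⟨hq', b2⟩⟩⟩
    omega
  · exact c12 y y' k hy yy a2 a3 b3 b4 b5
  · exact c13 y y' yy a3 b2
  · exact c12 y' y j hy' (Ne.symm yy) b2 b3 a3 a4 a5
  · obtain rfl : j = k := see_hole ok hq hs hz hj hk a4 b4
    have l1 := both y j a5
    have l2 := both y' j b5
    have l3 := seer j hj a2
    have dj : Disjoint ((X.F \ d.Rt).filter fun w => X.See f w y ∧ X.See f w j)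
        ((X.F \ d.Rt).filter fun w => X.See f w y' ∧ X.See f w j) :=
      disjoint_left.2 fun w h1 h2 => by
        rcases see3 ok (mF (mem_filter.1 h1).1) (mem_filter.1 h1).2.1 (mem_filter.1 h1).2.2
          (mem_filter.1 h2).2.1 a3 with e | e
        · exact yy e.symm
        · exact b3 e
    have e := card_union_of_disjoint dj
    have : (((X.F \ d.Rt).filter fun w => X.See f w y ∧ X.See f w j) ∪
        ((X.F \ d.Rt).filter fun w => X.See f w y' ∧ X.See f w j)).card ≤
        ((X.F \ d.Rt).filter fun w => X.See f w j).card := by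
      refine card_le_card fun w hw => ?_
      rcases mem_union.1 hw with u | u
      · exact mem_filter.2 ⟨(mem_filter.1 u).1, (mem_filter.1 u).2.2⟩
      · exact mem_filter.2 ⟨(mem_filter.1 u).1, (mem_filter.1 u).2.2⟩
    omega
  · obtain rfl : j = y' := see_hole ok hq hs hz hj hy' a4 b1
    exact c23 y j hj a2 a3 a5 b2
  · exact c13 y' y (Ne.symm yy) b3 a2
  · obtain rfl : k = y := see_hole ok hq hs hz hk hy b4 a1
    exact c23 y' k hk b2 b3 b5 a2
  · exact yy (see_hole ok hq hs hz hy hy' a1 b1)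

end Fr

end Pool.Agent.Lib.MP_12eaff_co.Frz.Acc2
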