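import Pool.Agent.Lib.MP_12eaff_co.Frz.F.L2

set_option autoImplicit false
set_option linter.unusedSectionVars false

namespace Pool.Agent.Lib.MP_12eaff_co.Frz.Acc2

open Finset
open scoped Classical

namespace Fr

variable {V : Type} [Fintype V] {X : Fr V} {D : ℕ} {d : Dat V} {f g : V → ℕ}

theorem shift_e (z e : V) : shift D f z e e = D := by
  unfold shift
  rw [Function.update_self]

theorem shift_z {z e : V} (n : z ≠ e) : shift D f z e z = f e := by
  unfold shift
  rw [Function.update_of_ne n, Function.update_self]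

theorem shift_o {z e x : V} (n : x ≠ z) (n' : x ≠ e) : shift D f z e x = f x := by
  unfold shift
  rw [Function.update_of_ne n', Function.update_of_ne n]

theorem see_ag {m : V} (ag : ∀ x ∈ X.sl m, g x = f x) (c : ℕ) : X.See g m c ↔ X.See f m c := by
  unfold See
  exact exists_congr fun a => and_congr_right fun ha => by rw [ag a ha]

theorem mono_ag {m : V} (ag : ∀ x ∈ X.sl m, g x = f x) (c : ℕ) :
    X.Mono g m c ↔ X.Mono f m c := by
  unfold Mono
  exact exists_congr fun a => and_congr_right fun ha =>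
    exists_congr fun b => and_congr_right fun hb => by rw [ag a ha, ag b hb]

/-- Exchanging the rooted member `h` for the member `w`. -/
theorem soft_swap (s : X.Soft D d f) {h w : V} (hh : h ∈ d.Rt) (hF : h ∈ X.F) (nw : w ∉ d.Rt)
    {d' : Dat V} (eA : d'.A = d.A) (eη : d'.η = d.η) (eR : d'.Rt = insert w (d.Rt.erase h))
    (ag : ∀ m ∈ X.F, m ≠ h → m ≠ w → ∀ x ∈ X.sl m, g x = f x)
    (c1 : ∀ y < D, y ∉ d.A → X.See g h y → w ∈ X.Ns d.Rt f y → 4 ≤ (X.Ns d.Rt f y).card)
    (c2 : ∀ y y', y ∉ d.A → y' ∉ d.A → y ≠ y' → ¬ (X.See g h y ∧ X.See g h y'))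
    (c3 : ∀ y < D, y ≠ d.η → ¬ X.Mono g h y) : X.Soft D d' g := by
  have hw : h ≠ w := fun e => nw (e ▸ hh)
  have mh : h ∈ X.F \ d'.Rt := by
    rw [eR, mem_sdiff, mem_insert, mem_erase]
    exact ⟨hF, fun t => t.elim hw fun u => u.1 rfl⟩
  have mo : ∀ m ∈ X.F \ d.Rt, m ≠ w → m ∈ X.F \ d'.Rt ∧ m ≠ h := by
    intro m hm e
    rw [mem_sdiff] at hm
    refine ⟨?_, fun t => hm.2 (t ▸ hh)⟩
    rw [eR, mem_sdiff, mem_insert, mem_erase]
    exact ⟨hm.1, fun t => t.elim e fun u => hm.2 u.2⟩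
  have tr : ∀ (P Q : V → Prop) [DecidablePred P] [DecidablePred Q], (∀ m ∈ X.F, m ≠ h → m ≠ w → P m → Q m) →
      ∀ m ∈ (X.F \ d.Rt).filter P, m ≠ w → m ∈ ((X.F \ d'.Rt).filter Q).erase h := by
    intro P Q _ _ pq m hm e
    rw [mem_filter] at hm
    obtain ⟨a, b⟩ := mo m hm.1 e
    exact mem_erase.2 ⟨b, mem_filter.2 ⟨a, pq m (mem_sdiff.1 a).1 b e hm.2⟩⟩
  have up : ∀ (P Q : V → Prop) [DecidablePred P] [DecidablePred Q], (∀ m ∈ X.F, m ≠ h → m ≠ w → P m → Q m) → Q h →
      ((X.F \ d.Rt).filter P).card ≤ ((X.F \ d'.Rt).filter Q).card := by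
    intro P Q _ _ pq qh
    have a := card_ins (tr P Q pq)
    have m : h ∈ (X.F \ d'.Rt).filter Q := mem_filter.2 ⟨mh, qh⟩
    have b := card_erase_add_one m
    omega
  refine ⟨fun y hy hA => ?_, fun y hy y' hy' hA hB yy => ?_, fun y hy hη => ?_⟩
  · rw [eA] at hA
    have pq : ∀ m ∈ X.F, m ≠ h → m ≠ w → ¬ X.See f m y → ¬ X.See g m y :=
      fun m hm a b t u => t ((see_ag (ag m hm a b) y).1 u)
    have h3 := s.s1 y hy hA
    by_cases t : X.See g h y
    · have le : (((X.F \ d'.Rt).filter fun m => ¬ X.See g m y).erase h).card ≤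
          (X.Ns d'.Rt g y).card := card_le_card (erase_subset _ _)
      by_cases u : w ∈ X.Ns d.Rt f y
      · have h4 := c1 y hy hA t u
        have a := card_ins (tr _ _ pq)
        unfold Ns at h4
        omega
      · refine h3.trans (le_trans (card_le_card fun m hm => ?_) le)
        exact tr _ _ pq m hm fun e => u (e ▸ hm)
    · exact h3.trans (up _ _ pq t)
  · rw [eA] at hA hB
    refine (s.s2 y hy y' hy' hA hB yy).trans (up _ _ (fun m hm a b t u => t ?_) (c2 y y' hA hB yy))
    exact ⟨(see_ag (ag m hm a b) y).1 u.1, (see_ag (ag m hm a b) y').1 u.2⟩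
  · rw [eη] at hη
    refine (card_le_card fun m hm => ?_).trans (s.s3 y hy hη)
    rw [mem_filter] at hm ⊢
    have a : m ≠ h := fun e => c3 y hy hη (e ▸ hm.2)
    have b := hm.1
    rw [eR, mem_sdiff, mem_insert, mem_erase, not_or] at b
    exact ⟨mem_sdiff.2 ⟨b.1, fun t => b.2.2 ⟨a, t⟩⟩, (mono_ag (ag m b.1 a b.2.1) y).1 hm.2⟩

theorem card_swap {R : Finset V} {h w : V} (hh : h ∈ R) (nw : w ∉ R) :
    (insert w (R.erase h)).card = R.card := by
  rw [card_insert_of_notMem fun t => nw (mem_erase.1 t).2, card_erase_add_one hh]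

theorem passA (ok : X.OK) (h : X.Inv D d f) {z w e : V} {a : ℕ} (ha : a ∈ d.A)
    (hs : z ∈ X.sl (d.hd a)) (hz : D ≤ f z) (hw : w ∈ X.F) (nh : ∀ b ∈ d.A, w ≠ d.hd b)
    (he : e ∈ X.sl w) (ce : f e = a) (nm : ¬ X.Mono f w a) (al : X.Allow D d f a w) :
    ∃ d', X.Inv D d' (shift D f z e) ∧ Dat.Step D d d' w e a := by
  have aD := h.lt a ha
  have hR := (h.p2 a ha).1
  have hF := h.sub hR
  have wh : w ≠ d.hd a := nh a ha
  have ze : z ≠ e := fun t => by rw [t] at hz; omega
  have zo : ∀ m ∈ X.F, z ∈ X.sl m → m = d.hd a := fun m hm t => ok.dis m hm _ hF z t hs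
  have eo : ∀ m ∈ X.F, e ∈ X.sl m → m = w := fun m hm t => ok.dis m hm _ hw e t he
  have own : ∀ x ∈ X.sl w, shift D f z e x ≠ a := by
    intro x hx
    by_cases xe : x = e
    · rw [xe, shift_e]
      omega
    · rw [shift_o (x := x) (fun t : x = z => wh (zo w hw (t ▸ hx))) xe]
      exact fun t => nm ⟨x, hx, e, he, xe, t, ce⟩
  have old : ∀ x m, m ∈ d.Rt → x ∈ X.sl m → d.pin x m ∈ d.A → f x ≠ d.pin x m → x ≠ z →
      shift D f z e x ≠ d.pin x m := by
    intro x m _ _ h3 h4 xz
    by_cases xe : x = e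
    · have := h.lt _ h3
      rw [xe, shift_e, ← xe]
      omega
    · rw [shift_o xz xe]
      exact h4
  have hdb : ∀ b ∈ d.A, b ≠ a → d.hd b ≠ d.hd a := fun b hb n t => n (h.inj b hb a ha t)
  have inj' : ∀ b ∈ d.A, ∀ c ∈ d.A,
      Function.update d.hd a w b = Function.update d.hd a w c → b = c := by
    intro b hb c hc t
    by_cases ba : b = a <;> by_cases ca : c = a
    · rw [ba, ca]
    · rw [ba, Function.update_self, Function.update_of_ne ca] at t
      exact absurd t (nh c hc)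
    · rw [ca, Function.update_self, Function.update_of_ne ba] at t
      exact absurd t.symm (nh b hb)
    · rw [Function.update_of_ne ba, Function.update_of_ne ca] at t
      exact h.inj b hb c hc t
  have aη : d.η < D → a = d.η := fun t => by
    have := h.hard t
    rw [this, mem_singleton] at ha
    exact ha
  by_cases wR : w ∈ d.Rt
  · have hη : d.η < D := by
      by_contra t
      obtain ⟨b, hb, u⟩ := h.nh (not_lt.1 t) w wR
      exact nh b hb u.symm
    refine ⟨⟨d.A, d.η, d.Rt, Function.update d.hd a w, fun x m =>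
      if m = w ∧ x ∈ X.sl w then a else if x = z ∧ m = d.hd a then D + 1 else d.pin x m⟩,
      ⟨h.lt, h.hard, h.sub, h.r3, fun x m => ?_, fun b hb => ?_, inj', fun _ => ?_,
        fun t => absurd hη (not_lt.2 t), ?_⟩, ⟨rfl, rfl, ?_, fun x m => ?_⟩⟩
    · dsimp only
      by_cases c1 : m = w ∧ x ∈ X.sl w
      · rw [if_pos c1]
        exact Or.inr ⟨c1.1 ▸ wR, c1.1 ▸ c1.2, ha, own x c1.2⟩
      · rw [if_neg c1]
        by_cases c2 : x = z ∧ m = d.hd a
        · rw [if_pos c2]
          exact Or.inl rfl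
        · rw [if_neg c2]
          rcases h.p1 x m with t | ⟨h1, h2, h3, h4⟩
          · exact Or.inl t
          · exact Or.inr ⟨h1, h2, h3,
              old x m h1 h2 h3 h4 fun t => c2 ⟨t, zo m (h.sub h1) (t ▸ h2)⟩⟩
    · dsimp only
      by_cases ba : b = a
      · rw [ba, Function.update_self]
        exact ⟨wR, fun x hx => if_pos ⟨rfl, hx⟩⟩
      · rw [Function.update_of_ne ba]
        refine ⟨(h.p2 b hb).1, fun x hx => ?_⟩
        rw [if_neg fun t => nh b hb t.1.symm, if_neg fun t => hdb b hb ba t.2]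
        exact (h.p2 b hb).2 x hx
    · dsimp only
      refine ⟨(h.p3 hη).1, fun m hm => ?_⟩
      by_cases mw : m = w
      · exact Or.inr ⟨e, mw ▸ he, by rw [if_pos ⟨mw, he⟩]; exact aη hη⟩
      · by_cases mh : m = d.hd a
        · by_cases c : (X.sl m).card < 2
          · exact Or.inl c
          · obtain ⟨x, hx, xz⟩ := exists_mem_ne (s := X.sl m) (by omega) z
            refine Or.inr ⟨x, hx, ?_⟩
            rw [if_neg fun t => mw t.1, if_neg fun t => xz t.1, mh, ← aη hη]
            exact (h.p2 a ha).2 x (mh ▸ hx)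
        · rcases (h.p3 hη).2 m hm with t | ⟨x, hx, t⟩
          · exact Or.inl t
          · refine Or.inr ⟨x, hx, ?_⟩
            rw [if_neg fun t => mw t.1, if_neg fun t => mh t.2]
            exact t
    · have s := soft_unc (soft_off h.soft
        (fun m hm hr t => hr ((zo m hm t).symm ▸ hR)) (f e)) e
      exact ⟨s.s1, s.s2, s.s3⟩
    · exact if_pos ⟨rfl, he⟩
    · dsimp only
      by_cases c1 : m = w ∧ x ∈ X.sl w
      · rw [if_pos c1]
        exact Or.inr (Or.inr ⟨c1.1, rfl⟩)
      · rw [if_neg c1]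
        by_cases c2 : x = z ∧ m = d.hd a
        · rw [if_pos c2]
          exact Or.inl rfl
        · rw [if_neg c2]
          exact Or.inr (Or.inl rfl)
  · have sa : X.See (shift D f z e) (d.hd a) a := ⟨z, hs, by rw [shift_z ze, ce]⟩
    have oth : ∀ x ∈ X.sl (d.hd a), x ≠ z → shift D f z e x = f x :=
      fun x hx xz => shift_o xz fun t => wh (eo _ hF (t ▸ hx)).symm
    refine ⟨⟨d.A, d.η, insert w (d.Rt.erase (d.hd a)), Function.update d.hd a w, fun x m =>
      if m = w ∧ x ∈ X.sl w then a else if m = d.hd a then D + 1 else d.pin x m⟩,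
      ⟨h.lt, h.hard, ?_, ?_, fun x m => ?_, fun b hb => ?_, inj', fun hη => ?_,
        fun t m hm => ?_, ?_⟩, ⟨rfl, rfl, ?_, fun x m => ?_⟩⟩
    · exact insert_subset hw ((erase_subset _ _).trans h.sub)
    · exact (card_swap hR wR).le.trans h.r3
    · dsimp only
      by_cases c1 : m = w ∧ x ∈ X.sl w
      · rw [if_pos c1]
        exact Or.inr ⟨c1.1 ▸ mem_insert_self _ _, c1.1 ▸ c1.2, ha, own x c1.2⟩
      · rw [if_neg c1]
        by_cases c2 : m = d.hd a
        · rw [if_pos c2]
          exact Or.inl rfl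
        · rw [if_neg c2]
          rcases h.p1 x m with t | ⟨h1, h2, h3, h4⟩
          · exact Or.inl t
          · exact Or.inr ⟨mem_insert_of_mem (mem_erase.2 ⟨c2, h1⟩), h2, h3,
              old x m h1 h2 h3 h4 fun t => c2 (zo m (h.sub h1) (t ▸ h2))⟩
    · dsimp only
      by_cases ba : b = a
      · rw [ba, Function.update_self]
        exact ⟨mem_insert_self _ _, fun x hx => if_pos ⟨rfl, hx⟩⟩
      · rw [Function.update_of_ne ba]
        refine ⟨mem_insert_of_mem (mem_erase.2 ⟨hdb b hb ba, (h.p2 b hb).1⟩), fun x hx => ?_⟩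
        rw [if_neg fun t => nh b hb t.1.symm, if_neg (hdb b hb ba)]
        exact (h.p2 b hb).2 x hx
    · dsimp only
      refine ⟨(card_swap hR wR).trans (h.p3 hη).1, fun m hm => ?_⟩
      by_cases mw : m = w
      · exact Or.inr ⟨e, mw ▸ he, by rw [if_pos ⟨mw, he⟩]; exact aη hη⟩
      · have hm' := mem_erase.1 ((mem_insert.1 hm).resolve_left mw)
        rcases (h.p3 hη).2 m hm'.2 with t | ⟨x, hx, t⟩
        · exact Or.inl t
        · refine Or.inr ⟨x, hx, ?_⟩
          rw [if_neg fun t => mw t.1, if_neg hm'.1]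
          exact t
    · dsimp only
      by_cases mw : m = w
      · exact ⟨a, ha, by rw [Function.update_self, mw]⟩
      · have hm' := mem_erase.1 ((mem_insert.1 hm).resolve_left mw)
        obtain ⟨b, hb, u⟩ := h.nh t m hm'.2
        exact ⟨b, hb, by rw [Function.update_of_ne fun t => hm'.1 (by rw [← u, t]), u]⟩
    · refine soft_swap h.soft hR hF wR rfl rfl rfl (fun m hm n1 n2 x hx => ?_)
        (fun y hy hA t u => al y hy hA ?_ u) (fun y y' hA hB yy t => ?_) (fun y hy _ t => ?_)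
      · exact shift_o (fun t => n1 (zo m hm (t ▸ hx))) fun t => n2 (eo m hm (t ▸ hx))
      · obtain ⟨x, hx, v⟩ := t
        by_cases xz : x = z
        · rw [xz, shift_z ze, ce] at v
          exact absurd (v ▸ ha) hA
        · exact ⟨x, hx, (oth x hx xz).symm.trans v⟩
      · rcases see3 ok hF t.1 t.2 sa yy with v | v
        · exact hA (v ▸ ha)
        · exact hB (v ▸ ha)
      · have ya : a = y := mono_see ok hF t sa
        have key : ∀ x ∈ X.sl (d.hd a), x ≠ z → shift D f z e x ≠ y := by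
          intro x hx xz
          rw [oth x hx xz, ← ya]
          have p := (h.p2 a ha).2 x hx
          rcases h.p1 x (d.hd a) with v | v
          · omega
          · exact p ▸ v.2.2.2
        obtain ⟨x, hx, x', hx', n, v, v'⟩ := t
        by_cases xz : x = z
        · exact key x' hx' (fun u => n (xz.trans u.symm)) v'
        · exact key x hx xz v
    · exact if_pos ⟨rfl, he⟩
    · dsimp only
      by_cases c1 : m = w ∧ x ∈ X.sl w
      · rw [if_pos c1]
        exact Or.inr (Or.inr ⟨c1.1, rfl⟩)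
      · rw [if_neg c1]
        by_cases c2 : m = d.hd a
        · rw [if_pos c2]
          exact Or.inl rfl
        · rw [if_neg c2]
          exact Or.inr (Or.inl rfl)

theorem passM (ok : X.OK) (h : X.Inv D d f) {z q w e : V} (hη : d.η < D) (hp : d.pin z q = d.η)
    (nq : q ≠ d.hd d.η) (hz : D ≤ f z) (sq : X.See f q d.η) (hw : w ∈ X.F) (nw : w ∉ d.Rt)
    (mw : X.Mono f w d.η) (he : e ∈ X.sl w) :
    ∃ d', X.Inv D d' (shift D f z e) ∧ Dat.Step D d d' w e d.η := by
  have eA := h.hard hη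
  have ha : d.η ∈ d.A := eA ▸ mem_singleton_self _
  obtain ⟨hR, hs, -, -⟩ := (h.p1 z q).resolve_left (by omega)
  have hF := h.sub hR
  have ce : f e = d.η := mono_see ok hw mw ⟨e, he, rfl⟩
  have ze : z ≠ e := fun t => by rw [t] at hz; omega
  have qw : q ≠ w := fun t => nw (t ▸ hR)
  have zo : ∀ m ∈ X.F, z ∈ X.sl m → m = q := fun m hm t => ok.dis m hm _ hF z t hs
  have eo : ∀ m ∈ X.F, e ∈ X.sl m → m = w := fun m hm t => ok.dis m hm _ hw e t he
  have mq : X.Mono (shift D f z e) q d.η := by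
    obtain ⟨x, hx, v⟩ := sq
    have xz : x ≠ z := fun t => by rw [t] at v; omega
    exact ⟨x, hx, z, hs, xz, by rw [shift_o xz fun t : x = e => qw (eo q hF (t ▸ hx)), v],
      by rw [shift_z ze, ce]⟩
  refine ⟨⟨d.A, d.η, insert w (d.Rt.erase q), d.hd, fun x m =>
    if m = w ∧ x = e then d.η else if m = q then D + 1 else d.pin x m⟩,
    ⟨h.lt, h.hard, ?_, ?_, fun x m => ?_, fun b hb => ?_, h.inj, fun _ => ?_,
      fun t => absurd hη (not_lt.2 t), ?_⟩, ⟨rfl, rfl, ?_, fun x m => ?_⟩⟩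
  · exact insert_subset hw ((erase_subset _ _).trans h.sub)
  · exact (card_swap hR nw).le.trans h.r3
  · dsimp only
    by_cases c1 : m = w ∧ x = e
    · rw [if_pos c1, c1.1, c1.2, shift_e]
      exact Or.inr ⟨mem_insert_self _ _, he, ha, by omega⟩
    · rw [if_neg c1]
      by_cases c2 : m = q
      · rw [if_pos c2]
        exact Or.inl rfl
      · rw [if_neg c2]
        rcases h.p1 x m with t | ⟨h1, h2, h3, h4⟩
        · exact Or.inl t
        · refine Or.inr ⟨mem_insert_of_mem (mem_erase.2 ⟨c2, h1⟩), h2, h3, ?_⟩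
          rw [shift_o (fun t : x = z => c2 (zo m (h.sub h1) (t ▸ h2)))
            fun t : x = e => nw (eo m (h.sub h1) (t ▸ h2) ▸ h1)]
          exact h4
  · dsimp only
    have bη : b = d.η := by
      have := hb
      dsimp only at this
      rw [eA, mem_singleton] at this
      exact this
    have n1 : d.hd b ≠ q := fun t => nq (by rw [← t, bη])
    have n2 : d.hd b ≠ w := fun t => nw (t ▸ (h.p2 b hb).1)
    refine ⟨mem_insert_of_mem (mem_erase.2 ⟨n1, (h.p2 b hb).1⟩), fun x hx => ?_⟩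
    rw [if_neg fun t => n2 t.1, if_neg n1]
    exact (h.p2 b hb).2 x hx
  · dsimp only
    refine ⟨(card_swap hR nw).trans (h.p3 hη).1, fun m hm => ?_⟩
    by_cases mw : m = w
    · exact Or.inr ⟨e, mw ▸ he, if_pos ⟨mw, rfl⟩⟩
    · have hm' := mem_erase.1 ((mem_insert.1 hm).resolve_left mw)
      rcases (h.p3 hη).2 m hm'.2 with t | ⟨x, hx, t⟩
      · exact Or.inl t
      · refine Or.inr ⟨x, hx, ?_⟩
        rw [if_neg fun t => mw t.1, if_neg hm'.1]
        exact t
  · refine soft_swap h.soft hR hF nw rfl rfl rfl (fun m hm n1 n2 x hx => ?_)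
      (fun y _ hA t _ => ?_) (fun y y' hA _ _ t => ?_) (fun y _ n t => ?_)
    · exact shift_o (fun t => n1 (zo m hm (t ▸ hx))) fun t => n2 (eo m hm (t ▸ hx))
    · exact absurd (mono_see ok hF mq t ▸ ha) hA
    · exact hA (mono_see ok hF mq t.1 ▸ ha)
    · exact n (mono_see ok hF mq t.see)
  · exact if_pos ⟨rfl, rfl⟩
  · dsimp only
    by_cases c1 : m = w ∧ x = e
    · rw [if_pos c1]
      exact Or.inr (Or.inr ⟨c1.1, rfl⟩)
    · rw [if_neg c1]
      by_cases c2 : m = q
      · rw [if_pos c2]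
        exact Or.inl rfl
      · rw [if_neg c2]
        exact Or.inr (Or.inl rfl)

end Fr

end Pool.Agent.Lib.MP_12eaff_co.Frz.Acc2
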